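import Mathlib

/-!
Counting pairs `(m, n)` in the box `[1, N]^2` with `d ∣ m^2 + n^2`.
-/

set_option autoImplicit false

namespace Pool.Agent.Lib.MP_696bea_an

/-- The box `[1, N]^2`. -/
def box (N : ℕ) : Finset (ℕ × ℕ) := Finset.Icc 1 N ×ˢ Finset.Icc 1 N

/-- The sum of the two squares. -/
def ssq (z : ℕ × ℕ) : ℕ := z.1 ^ 2 + z.2 ^ 2

/-- Number of pairs in the box `[1, N]^2` with `d ∣ m^2 + n^2`. -/
def cnt (N d : ℕ) : ℕ := ((box N).filter (fun z => d ∣ ssq z)).card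

/-- One dimensional count. -/
def c1 (N d : ℕ) (a : ZMod d) : ℕ := ((Finset.Icc 1 N).filter (fun m : ℕ => (m : ZMod d) = a)).card

/-- Number of solutions of `a^2 + b^2 = 0` modulo `d`. -/
def rho (d : ℕ) [NeZero d] : ℕ :=
  (Finset.univ.filter (fun z : ZMod d × ZMod d => z.1 ^ 2 + z.2 ^ 2 = 0)).card

lemma c1_eq (N d : ℕ) [NeZero d] (a : ZMod d) :
    c1 N d a = N / d + if (a - 1).val % d < N % d then 1 else 0 := by
  have hd : 0 < d := Nat.pos_of_ne_zero (NeZero.ne d)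
  rw [← Nat.count_modEq_card N hd, Nat.count_eq_card_filter_range, c1]
  symm
  refine Finset.card_bij (fun i _ => i + 1) ?_ ?_ ?_
  · intro i hi
    simp only [Finset.mem_filter, Finset.mem_range, Finset.mem_Icc] at hi ⊢
    refine ⟨by omega, ?_⟩
    have h1 : ((i : ℕ) : ZMod d) = (((a - 1).val : ℕ) : ZMod d) :=
      (ZMod.natCast_eq_natCast_iff _ _ _).2 hi.2
    rw [ZMod.natCast_zmod_val] at h1
    push_cast
    rw [h1]; ring
  · intro i _ j _ h
    simpa using h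
  · intro m hm
    simp only [Finset.mem_filter, Finset.mem_Icc] at hm
    refine ⟨m - 1, ?_, by omega⟩
    simp only [Finset.mem_filter, Finset.mem_range]
    refine ⟨by omega, ?_⟩
    apply (ZMod.natCast_eq_natCast_iff _ _ _).1
    rw [ZMod.natCast_zmod_val, Nat.cast_sub hm.1.1, hm.2]
    simp

lemma c1_ge (N d : ℕ) [NeZero d] (a : ZMod d) : N / d ≤ c1 N d a := by
  rw [c1_eq]; omega

lemma c1_le (N d : ℕ) [NeZero d] (a : ZMod d) : c1 N d a ≤ N / d + 1 := by
  rw [c1_eq]; split_ifs <;> omega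

lemma cnt_eq_sum (N d : ℕ) [NeZero d] :
    cnt N d = ∑ z ∈ Finset.univ.filter (fun z : ZMod d × ZMod d => z.1 ^ 2 + z.2 ^ 2 = 0),
      c1 N d z.1 * c1 N d z.2 := by
  classical
  rw [cnt, Finset.card_eq_sum_card_fiberwise
    (f := fun z : ℕ × ℕ => ((z.1 : ZMod d), (z.2 : ZMod d)))
    (t := Finset.univ.filter (fun z : ZMod d × ZMod d => z.1 ^ 2 + z.2 ^ 2 = 0))]
  · refine Finset.sum_congr rfl fun z hz => ?_
    rw [c1, c1, ← Finset.card_product]
    congr 1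
    ext w
    simp only [box, ssq, Finset.mem_filter, Finset.mem_product, Finset.mem_univ, true_and] at hz ⊢
    constructor
    · rintro ⟨⟨⟨h1, h2⟩, _⟩, h3⟩
      have h4 := congrArg Prod.fst h3
      have h5 := congrArg Prod.snd h3
      exact ⟨⟨h1, h4⟩, ⟨h2, h5⟩⟩
    · rintro ⟨⟨h1, h4⟩, ⟨h2, h5⟩⟩
      refine ⟨⟨⟨h1, h2⟩, ?_⟩, Prod.ext h4 h5⟩
      rw [← ZMod.natCast_eq_zero_iff]
      push_cast
      rw [h4, h5]
      exact hz
  · intro z hz
    simp only [box, ssq, Finset.coe_filter, Finset.mem_product, Set.mem_ofPred_eq,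
      Finset.mem_univ, true_and] at hz ⊢
    have h2 := hz.2
    rw [← ZMod.natCast_eq_zero_iff] at h2
    push_cast at h2
    exact h2

lemma cnt_le (N d : ℕ) [NeZero d] : cnt N d ≤ (N / d + 1) ^ 2 * rho d := by
  rw [cnt_eq_sum, rho, mul_comm, ← smul_eq_mul, ← Finset.sum_const]
  refine Finset.sum_le_sum fun z _ => ?_
  rw [sq]
  exact Nat.mul_le_mul (c1_le N d _) (c1_le N d _)

lemma cnt_ge (N d : ℕ) [NeZero d] : (N / d) ^ 2 * rho d ≤ cnt N d := by
  rw [cnt_eq_sum, rho, mul_comm, ← smul_eq_mul, ← Finset.sum_const]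
  refine Finset.sum_le_sum fun z _ => ?_
  rw [sq]
  exact Nat.mul_le_mul (c1_ge N d _) (c1_ge N d _)

lemma rho_mul (d e : ℕ) [NeZero d] [NeZero e] (h : Nat.Coprime d e) :
    haveI : NeZero (d * e) := ⟨mul_ne_zero (NeZero.ne d) (NeZero.ne e)⟩
    rho (d * e) = rho d * rho e := by
  classical
  haveI : NeZero (d * e) := ⟨mul_ne_zero (NeZero.ne d) (NeZero.ne e)⟩
  rw [rho, rho, rho, ← Finset.card_product]
  let φ := ZMod.chineseRemainder h
  refine Finset.card_bij (fun z _ => (((φ z.1).1, (φ z.2).1), ((φ z.1).2, (φ z.2).2))) ?_ ?_ ?_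
  · intro z hz
    simp only [Finset.mem_filter, Finset.mem_univ, true_and, Finset.mem_product] at hz ⊢
    have h1 : (φ z.1) ^ 2 + (φ z.2) ^ 2 = 0 := by
      rw [← map_pow, ← map_pow, ← map_add, hz, map_zero]
    have h2 := congrArg Prod.fst h1
    have h3 := congrArg Prod.snd h1
    exact ⟨h2, h3⟩
  · intro z _ w _ hzw
    simp only [Prod.mk.injEq] at hzw
    have h1 : φ z.1 = φ w.1 := Prod.ext hzw.1.1 hzw.2.1
    have h2 : φ z.2 = φ w.2 := Prod.ext hzw.1.2 hzw.2.2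
    exact Prod.ext (φ.injective h1) (φ.injective h2)
  · rintro ⟨⟨a, b⟩, ⟨a', b'⟩⟩ hz
    simp only [Finset.mem_filter, Finset.mem_univ, true_and, Finset.mem_product] at hz
    refine ⟨(φ.symm (a, a'), φ.symm (b, b')), ?_, ?_⟩
    · simp only [Finset.mem_filter, Finset.mem_univ, true_and]
      apply φ.injective
      rw [map_add, map_pow, map_pow, φ.apply_symm_apply, φ.apply_symm_apply, map_zero]
      exact Prod.ext hz.1 hz.2
    · simp

lemma rho_prime (p : ℕ) [Fact p.Prime] (hp : p % 4 = 1) :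
    haveI : NeZero p := ⟨(Fact.out : p.Prime).ne_zero⟩
    rho p = 2 * p - 1 := by
  classical
  have hpp : p.Prime := Fact.out
  haveI : NeZero p := ⟨hpp.ne_zero⟩
  obtain ⟨i, hi⟩ : IsSquare (-1 : ZMod p) := ZMod.exists_sq_eq_neg_one_iff.2 (by omega)
  have hp2 : p ≠ 2 := by rintro rfl; omega
  have hi0 : i ≠ 0 := by
    rintro rfl
    simp at hi
  have h2 : (2 : ZMod p) ≠ 0 := by
    intro h
    have : ((2 : ℕ) : ZMod p) = 0 := by exact_mod_cast h
    rw [ZMod.natCast_eq_zero_iff] at this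
    exact hp2 ((Nat.prime_dvd_prime_iff_eq hpp Nat.prime_two).1 this)
  -- fiberwise over the second coordinate
  rw [rho, Finset.card_eq_sum_card_fiberwise (f := fun z : ZMod p × ZMod p => z.2)
    (t := Finset.univ) (fun _ _ => by simp)]
  have hfib : ∀ b : ZMod p, ((Finset.univ.filter
      (fun z : ZMod p × ZMod p => z.1 ^ 2 + z.2 ^ 2 = 0)).filter (fun z => z.2 = b)).card =
      if b = 0 then 1 else 2 := by
    intro b
    have h1 : (Finset.univ.filter
      (fun z : ZMod p × ZMod p => z.1 ^ 2 + z.2 ^ 2 = 0)).filter (fun z => z.2 = b) =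
        {(i * b, b), (-(i * b), b)} := by
      ext ⟨u, v⟩
      simp only [Finset.mem_filter, Finset.mem_univ, true_and, Finset.mem_insert,
        Finset.mem_singleton, Prod.mk.injEq]
      constructor
      · rintro ⟨h1, rfl⟩
        have h3 : (u - i * v) * (u + i * v) = 0 := by
          have : (u - i * v) * (u + i * v) = u ^ 2 - (i * i) * v ^ 2 := by ring
          rw [this, ← hi, ← h1]; ring
        rcases mul_eq_zero.1 h3 with h | h
        · left; exact ⟨by rw [sub_eq_zero] at h; exact h, rfl⟩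
        · right; exact ⟨by rw [add_eq_zero_iff_eq_neg] at h; exact h, rfl⟩
      · rintro (⟨rfl, rfl⟩ | ⟨rfl, rfl⟩)
        · refine ⟨?_, rfl⟩
          have : (i * v) ^ 2 + v ^ 2 = (i * i) * v ^ 2 + v ^ 2 := by ring
          rw [this, ← hi]; ring
        · refine ⟨?_, rfl⟩
          have : (-(i * v)) ^ 2 + v ^ 2 = (i * i) * v ^ 2 + v ^ 2 := by ring
          rw [this, ← hi]; ring
    rw [h1]
    split_ifs with hb
    · subst hb; simp
    · rw [Finset.card_pair]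
      intro h
      have h3 := congrArg Prod.fst h
      simp only at h3
      have h4 : 2 * (i * b) = 0 := by
        have : 2 * (i * b) = i * b + i * b := by ring
        rw [this]
        nth_rewrite 1 [h3]
        ring
      rcases mul_eq_zero.1 h4 with h | h
      · exact h2 h
      · rcases mul_eq_zero.1 h with h | h
        · exact hi0 h
        · exact hb h
  rw [Finset.sum_congr rfl (fun b _ => hfib b)]
  rw [← Finset.add_sum_erase _ _ (Finset.mem_univ (0 : ZMod p))]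
  rw [Finset.sum_congr rfl (g := fun _ => 2) (fun b hb => by
    rw [if_neg (Finset.ne_of_mem_erase hb)])]
  simp only [if_true, Finset.sum_const, Finset.card_erase_of_mem (Finset.mem_univ _),
    Finset.card_univ, ZMod.card, smul_eq_mul]
  have := hpp.two_le
  omega

/-- real upper bound for primes `1` mod `4`. -/
lemma cnt_prime_le (N p : ℕ) (hpp : p.Prime) (hp : p % 4 = 1) :
    (cnt N p : ℝ) ≤ (N : ℝ) ^ 2 * ((2 * p - 1) / (p : ℝ) ^ 2) + (4 * N + 2 * p) := by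
  haveI : Fact p.Prime := ⟨hpp⟩
  haveI : NeZero p := ⟨hpp.ne_zero⟩
  have h1 := cnt_le N p
  rw [rho_prime p hp] at h1
  have hp1 : 1 ≤ 2 * p := by have := hpp.two_le; omega
  have h2 : (cnt N p : ℝ) ≤ (((N / p : ℕ) : ℝ) + 1) ^ 2 * (2 * p - 1) := by
    have : ((cnt N p : ℕ) : ℝ) ≤ (((N / p + 1) ^ 2 * (2 * p - 1) : ℕ) : ℝ) := by exact_mod_cast h1
    rw [Nat.cast_mul, Nat.cast_sub hp1] at this
    push_cast at this
    exact this
  have hp0 : (0 : ℝ) < p := by exact_mod_cast hpp.pos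
  have hp2 : (2 : ℝ) ≤ p := by exact_mod_cast hpp.two_le
  have h3 : ((N / p : ℕ) : ℝ) ≤ N / p := Nat.cast_div_le
  have h4 : (0 : ℝ) ≤ ((N / p : ℕ) : ℝ) := Nat.cast_nonneg _
  have h5 : (((N / p : ℕ) : ℝ) + 1) ^ 2 ≤ (N / p + 1) ^ 2 := by gcongr
  have h6 : (0 : ℝ) ≤ 2 * p - 1 := by linarith
  have hN : (0 : ℝ) ≤ N := Nat.cast_nonneg N
  calc (cnt N p : ℝ) ≤ (((N / p : ℕ) : ℝ) + 1) ^ 2 * (2 * p - 1) := h2
    _ ≤ ((N : ℝ) / p + 1) ^ 2 * (2 * p - 1) := mul_le_mul_of_nonneg_right h5 h6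
    _ = (N : ℝ) ^ 2 * ((2 * p - 1) / (p : ℝ) ^ 2) + (2 * N * ((2 * p - 1) / p) + (2 * p - 1)) := by
        field_simp
        ring
    _ ≤ (N : ℝ) ^ 2 * ((2 * p - 1) / (p : ℝ) ^ 2) + (4 * N + 2 * p) := by
        have h7 : (2 * (p : ℝ) - 1) / p ≤ 2 := by
          rw [div_le_iff₀ hp0]; linarith
        have h8 : 2 * (N : ℝ) * ((2 * p - 1) / p) ≤ 2 * N * 2 :=
          mul_le_mul_of_nonneg_left h7 (by positivity)
        linarith

/-- real lower bound for primes `1` mod `4`. -/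
lemma cnt_prime_ge (N p : ℕ) (hpp : p.Prime) (hp : p % 4 = 1) :
    (N : ℝ) ^ 2 * ((2 * p - 1) / (p : ℝ) ^ 2) - 4 * N ≤ (cnt N p : ℝ) := by
  haveI : Fact p.Prime := ⟨hpp⟩
  haveI : NeZero p := ⟨hpp.ne_zero⟩
  have h1 := cnt_ge N p
  rw [rho_prime p hp] at h1
  have hp1 : 1 ≤ 2 * p := by have := hpp.two_le; omega
  have h2 : (((N / p : ℕ) : ℝ)) ^ 2 * (2 * p - 1) ≤ (cnt N p : ℝ) := by
    have : (((N / p) ^ 2 * (2 * p - 1) : ℕ) : ℝ) ≤ ((cnt N p : ℕ) : ℝ) := by exact_mod_cast h1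
    rw [Nat.cast_mul, Nat.cast_sub hp1] at this
    push_cast at this
    exact this
  have hp0 : (0 : ℝ) < p := by exact_mod_cast hpp.pos
  have hp2 : (2 : ℝ) ≤ p := by exact_mod_cast hpp.two_le
  have h3 : (N : ℝ) / p - 1 ≤ ((N / p : ℕ) : ℝ) := by
    have h := Nat.lt_div_mul_add (a := N) hpp.pos
    have h' : (N : ℝ) < ((N / p : ℕ) : ℝ) * p + p := by exact_mod_cast h
    rw [sub_le_iff_le_add, div_le_iff₀ hp0]
    linarith
  have h4 : (0 : ℝ) ≤ ((N / p : ℕ) : ℝ) := Nat.cast_nonneg _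
  have hN : (0 : ℝ) ≤ N := Nat.cast_nonneg N
  have hx0 : (0 : ℝ) ≤ (N : ℝ) / p := by positivity
  have h5 : ((N : ℝ) / p) ^ 2 - 2 * ((N : ℝ) / p) ≤ (((N / p : ℕ) : ℝ)) ^ 2 := by
    rcases le_or_gt 1 ((N : ℝ) / p) with h | h
    · nlinarith
    · nlinarith
  have h6 : (0 : ℝ) ≤ 2 * p - 1 := by linarith
  calc (N : ℝ) ^ 2 * ((2 * p - 1) / (p : ℝ) ^ 2) - 4 * N
      ≤ (((N : ℝ) / p) ^ 2 - 2 * ((N : ℝ) / p)) * (2 * p - 1) := by
        have h7 : (2 * (p : ℝ) - 1) / p ≤ 2 := by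
          rw [div_le_iff₀ hp0]; linarith
        have h8 : 2 * (N : ℝ) * ((2 * p - 1) / p) ≤ 2 * N * 2 :=
          mul_le_mul_of_nonneg_left h7 (by positivity)
        have h9 : (((N : ℝ) / p) ^ 2 - 2 * ((N : ℝ) / p)) * (2 * p - 1) =
            (N : ℝ) ^ 2 * ((2 * p - 1) / (p : ℝ) ^ 2) - 2 * (N : ℝ) * ((2 * p - 1) / p) := by
          field_simp
        rw [h9]; linarith
    _ ≤ (((N / p : ℕ) : ℝ)) ^ 2 * (2 * p - 1) := mul_le_mul_of_nonneg_right h5 h6
    _ ≤ (cnt N p : ℝ) := h2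

/-- real upper bound for products of two distinct primes `1` mod `4`. -/
lemma cnt_two_primes_le (N p q : ℕ) (hpp : p.Prime) (hp : p % 4 = 1) (hqq : q.Prime)
    (hq : q % 4 = 1) (hne : p ≠ q) :
    (cnt N (p * q) : ℝ) ≤ (N : ℝ) ^ 2 * ((2 * p - 1) / (p : ℝ) ^ 2) *
      ((2 * q - 1) / (q : ℝ) ^ 2) + (8 * N + 4 * p * q) := by
  haveI : Fact p.Prime := ⟨hpp⟩
  haveI : NeZero p := ⟨hpp.ne_zero⟩
  haveI : Fact q.Prime := ⟨hqq⟩
  haveI : NeZero q := ⟨hqq.ne_zero⟩
  haveI : NeZero (p * q) := ⟨mul_ne_zero (NeZero.ne p) (NeZero.ne q)⟩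
  have h1 := cnt_le N (p * q)
  rw [rho_mul p q ((Nat.coprime_primes hpp hqq).2 hne), rho_prime p hp, rho_prime q hq] at h1
  have hp1 : 1 ≤ 2 * p := by have := hpp.two_le; omega
  have hq1 : 1 ≤ 2 * q := by have := hqq.two_le; omega
  have h2 : (cnt N (p * q) : ℝ) ≤
      (((N / (p * q) : ℕ) : ℝ) + 1) ^ 2 * ((2 * p - 1) * (2 * q - 1)) := by
    have : ((cnt N (p * q) : ℕ) : ℝ) ≤
      (((N / (p * q) + 1) ^ 2 * ((2 * p - 1) * (2 * q - 1)) : ℕ) : ℝ) := by exact_mod_cast h1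
    rw [Nat.cast_mul, Nat.cast_mul (2 * p - 1), Nat.cast_sub hp1, Nat.cast_sub hq1] at this
    push_cast at this
    exact this
  have hp0 : (0 : ℝ) < p := by exact_mod_cast hpp.pos
  have hp2 : (2 : ℝ) ≤ p := by exact_mod_cast hpp.two_le
  have hq0 : (0 : ℝ) < q := by exact_mod_cast hqq.pos
  have hq2 : (2 : ℝ) ≤ q := by exact_mod_cast hqq.two_le
  have h3 : ((N / (p * q) : ℕ) : ℝ) ≤ N / (p * q) := by
    have := Nat.cast_div_le (α := ℝ) (m := N) (n := p * q)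
    push_cast at this
    exact this
  have h4 : (0 : ℝ) ≤ ((N / (p * q) : ℕ) : ℝ) := Nat.cast_nonneg _
  have h5 : (((N / (p * q) : ℕ) : ℝ) + 1) ^ 2 ≤ (N / (p * q) + 1) ^ 2 := by gcongr
  have h6 : (0 : ℝ) ≤ 2 * p - 1 := by linarith
  have h6' : (0 : ℝ) ≤ 2 * q - 1 := by linarith
  have hN : (0 : ℝ) ≤ N := Nat.cast_nonneg N
  have hP : (2 * (p : ℝ) - 1) * (2 * q - 1) ≤ 4 * (p * q) := by nlinarith
  have hpq : (0 : ℝ) < p * q := mul_pos hp0 hq0
  calc (cnt N (p * q) : ℝ)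
      ≤ (((N / (p * q) : ℕ) : ℝ) + 1) ^ 2 * ((2 * p - 1) * (2 * q - 1)) := h2
    _ ≤ ((N : ℝ) / (p * q) + 1) ^ 2 * ((2 * p - 1) * (2 * q - 1)) :=
        mul_le_mul_of_nonneg_right h5 (mul_nonneg h6 h6')
    _ = (N : ℝ) ^ 2 * ((2 * p - 1) / (p : ℝ) ^ 2) * ((2 * q - 1) / (q : ℝ) ^ 2) +
        (2 * N / (p * q) * ((2 * p - 1) * (2 * q - 1)) + (2 * p - 1) * (2 * q - 1)) := by
        field_simp
        ring
    _ ≤ (N : ℝ) ^ 2 * ((2 * p - 1) / (p : ℝ) ^ 2) * ((2 * q - 1) / (q : ℝ) ^ 2) +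
        (8 * N + 4 * p * q) := by
        have h8 : 2 * (N : ℝ) / (p * q) * ((2 * p - 1) * (2 * q - 1)) ≤
            2 * N / (p * q) * (4 * (p * q)) :=
          mul_le_mul_of_nonneg_left hP (by positivity)
        have h9 : 2 * (N : ℝ) / (p * q) * (4 * (p * q)) = 8 * N := by
          field_simp; ring
        rw [h9] at h8
        linarith

/-- Uniqueness up to sign of square roots modulo a prime power. -/
lemma eq_or_eq_neg_of_pow_dvd {p j m m' n : ℕ} (hpp : p.Prime) (hj : 1 ≤ j)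
    (hn : ¬ p ∣ n) (hm : p ^ j ∣ m ^ 2 + n ^ 2) (hm' : p ^ j ∣ m' ^ 2 + n ^ 2) :
    (m : ZMod (p ^ j)) = (m' : ZMod (p ^ j)) ∨ (m : ZMod (p ^ j)) = -(m' : ZMod (p ^ j)) := by
  have hpj : p ∣ p ^ j := dvd_pow_self p (by omega)
  have hpm : ¬ p ∣ m := by
    intro h
    have h1 : p ∣ m ^ 2 + n ^ 2 := hpj.trans hm
    have h2 : p ∣ m ^ 2 := dvd_pow h (by norm_num)
    have h3 : p ∣ n ^ 2 := (Nat.dvd_add_right h2).1 h1
    exact hn (hpp.dvd_of_dvd_pow h3)
  have hpm' : ¬ p ∣ m' := by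
    intro h
    have h1 : p ∣ m' ^ 2 + n ^ 2 := hpj.trans hm'
    have h2 : p ∣ m' ^ 2 := dvd_pow h (by norm_num)
    have h3 : p ∣ n ^ 2 := (Nat.dvd_add_right h2).1 h1
    exact hn (hpp.dvd_of_dvd_pow h3)
  rcases eq_or_ne p 2 with h2 | h2
  · -- the prime two
    subst h2
    rcases Nat.lt_or_ge 1 j with hj2 | hj1
    · exfalso
      have h4 : 4 ∣ m ^ 2 + n ^ 2 := by
        have : (2 : ℕ) ^ 2 ∣ 2 ^ j := pow_dvd_pow 2 hj2
        exact (by simpa using this : 4 ∣ 2 ^ j).trans hm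
      have ho1 : m % 2 = 1 := by omega
      have ho2 : n % 2 = 1 := by omega
      obtain ⟨a, ha⟩ : ∃ a, m = 2 * a + 1 := ⟨m / 2, by omega⟩
      obtain ⟨b, hb⟩ : ∃ b, n = 2 * b + 1 := ⟨n / 2, by omega⟩
      rw [ha, hb] at h4
      have h5 : (2 * a + 1) ^ 2 + (2 * b + 1) ^ 2 = 4 * (a ^ 2 + a + b ^ 2 + b) + 2 := by ring
      rw [h5] at h4
      omega
    · have : j = 1 := le_antisymm hj1 hj
      subst this
      left
      have ho1 : m % 2 = 1 := by omega
      have ho2 : m' % 2 = 1 := by omega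
      rw [ZMod.natCast_eq_natCast_iff']
      simp only [pow_one]
      omega
  · -- odd primes
    have hd : ((p : ℤ) ^ j) ∣ ((m : ℤ) - m') * ((m : ℤ) + m') := by
      have h1 : ((p : ℤ) ^ j) ∣ (m : ℤ) ^ 2 + (n : ℤ) ^ 2 := by exact_mod_cast hm
      have h3 : ((p : ℤ) ^ j) ∣ (m' : ℤ) ^ 2 + (n : ℤ) ^ 2 := by exact_mod_cast hm'
      have h4 := dvd_sub h1 h3
      have h5 : (m : ℤ) ^ 2 + (n : ℤ) ^ 2 - ((m' : ℤ) ^ 2 + (n : ℤ) ^ 2) =
        ((m : ℤ) - m') * ((m : ℤ) + m') := by ring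
      rwa [h5] at h4
    have hpi : Prime (p : ℤ) := Nat.prime_iff_prime_int.1 hpp
    by_cases hA : (p : ℤ) ∣ (m : ℤ) - m'
    · have hB : ¬ (p : ℤ) ∣ (m : ℤ) + m' := by
        intro hB
        have h6 := dvd_add hA hB
        have h7 : (m : ℤ) - m' + (m + m') = 2 * m := by ring
        rw [h7] at h6
        rcases hpi.dvd_or_dvd h6 with h | h
        · have : p ∣ 2 := by exact_mod_cast h
          exact h2 ((Nat.prime_dvd_prime_iff_eq hpp Nat.prime_two).1 this)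
        · exact hpm (by exact_mod_cast h)
      left
      have hcop : IsCoprime ((p : ℤ) ^ j) ((m : ℤ) + m') :=
        IsCoprime.pow_left ((Prime.coprime_iff_not_dvd hpi).2 hB)
      have h8 := hcop.dvd_of_dvd_mul_right hd
      have h9 : ((p ^ j : ℕ) : ℤ) ∣ (m : ℤ) - m' := by push_cast; exact h8
      have h10 := (ZMod.intCast_zmod_eq_zero_iff_dvd ((m : ℤ) - m') (p ^ j)).2 h9
      push_cast at h10
      exact sub_eq_zero.1 h10
    · right
      have hcop : IsCoprime ((p : ℤ) ^ j) ((m : ℤ) - m') :=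
        IsCoprime.pow_left ((Prime.coprime_iff_not_dvd hpi).2 hA)
      have h8 := hcop.dvd_of_dvd_mul_left hd
      have h9 : ((p ^ j : ℕ) : ℤ) ∣ (m : ℤ) + m' := by push_cast; exact h8
      have h10 := (ZMod.intCast_zmod_eq_zero_iff_dvd ((m : ℤ) + m') (p ^ j)).2 h9
      push_cast at h10
      exact eq_neg_of_add_eq_zero_left h10

/-- Recursion for prime powers. -/
lemma cnt_pow_rec (N p j : ℕ) (hpp : p.Prime) (hj : 1 ≤ j) :
    cnt N (p ^ j) ≤ N * (2 * (N / p ^ j + 1)) + cnt (N / p) (p ^ (j - 2)) := by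
  classical
  haveI : NeZero (p ^ j) := ⟨(pow_pos hpp.pos j).ne'⟩
  have hsplit : (box N).filter (fun z => p ^ j ∣ ssq z) ⊆
      ((Finset.Icc 1 N).filter (fun n => ¬ p ∣ n)).biUnion
        (fun n => ((Finset.Icc 1 N).filter (fun m => p ^ j ∣ m ^ 2 + n ^ 2)).image
          (fun m => (m, n))) ∪
      ((box (N / p)).filter (fun z => p ^ (j - 2) ∣ ssq z)).image
        (fun z => (p * z.1, p * z.2)) := by
    intro z hz
    simp only [box, ssq, Finset.mem_filter, Finset.mem_product, Finset.mem_Icc] at hz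
    obtain ⟨⟨⟨h1, h2⟩, h3, h4⟩, h5⟩ := hz
    by_cases hn : p ∣ z.2
    · apply Finset.mem_union_right
      have hpj : p ∣ p ^ j := dvd_pow_self p (by omega)
      have hm : p ∣ z.1 := by
        have h6 : p ∣ z.1 ^ 2 + z.2 ^ 2 := hpj.trans h5
        have h7 : p ∣ z.2 ^ 2 := dvd_pow hn (by norm_num)
        exact hpp.dvd_of_dvd_pow ((Nat.dvd_add_left h7).1 h6)
      obtain ⟨a, ha⟩ := hm
      obtain ⟨b, hb⟩ := hn
      simp only [Finset.mem_image, Finset.mem_filter, box, Finset.mem_product, Finset.mem_Icc]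
      refine ⟨(a, b), ⟨⟨⟨?_, ?_⟩, ?_, ?_⟩, ?_⟩, ?_⟩
      · show 1 ≤ a
        rcases Nat.eq_zero_or_pos a with h | h
        · subst h; simp at ha; omega
        · exact h
      · show a ≤ N / p
        rw [Nat.le_div_iff_mul_le hpp.pos, mul_comm]
        omega
      · show 1 ≤ b
        rcases Nat.eq_zero_or_pos b with h | h
        · subst h; simp at hb; omega
        · exact h
      · show b ≤ N / p
        rw [Nat.le_div_iff_mul_le hpp.pos, mul_comm]
        omega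
      · simp only [ssq]
        rcases Nat.lt_or_ge j 2 with hj2 | hj2
        · have : j - 2 = 0 := by omega
          rw [this]; simp
        · have h8 : p ^ j = p ^ 2 * p ^ (j - 2) := by
            rw [← pow_add]; congr 1; omega
          rw [ha, hb, h8] at h5
          have h9 : (p * a) ^ 2 + (p * b) ^ 2 = p ^ 2 * (a ^ 2 + b ^ 2) := by ring
          rw [h9] at h5
          exact Nat.dvd_of_mul_dvd_mul_left (pow_pos hpp.pos 2) h5
      · exact Prod.ext ha.symm hb.symm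
    · apply Finset.mem_union_left
      simp only [Finset.mem_biUnion, Finset.mem_filter, Finset.mem_Icc, Finset.mem_image]
      exact ⟨z.2, ⟨⟨h3, h4⟩, hn⟩, z.1, ⟨⟨h1, h2⟩, h5⟩, rfl⟩
  have hone : ∀ n ∈ (Finset.Icc 1 N).filter (fun n => ¬ p ∣ n),
      (((Finset.Icc 1 N).filter (fun m => p ^ j ∣ m ^ 2 + n ^ 2)).image
          (fun m => (m, n))).card ≤ 2 * (N / p ^ j + 1) := by
    intro n hn
    simp only [Finset.mem_filter, Finset.mem_Icc] at hn
    refine Finset.card_image_le.trans ?_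
    rcases ((Finset.Icc 1 N).filter (fun m => p ^ j ∣ m ^ 2 + n ^ 2)).eq_empty_or_nonempty
      with he | ⟨m', hm'⟩
    · rw [he]; simp
    · simp only [Finset.mem_filter] at hm'
      have hsub : (Finset.Icc 1 N).filter (fun m => p ^ j ∣ m ^ 2 + n ^ 2) ⊆
          (Finset.Icc 1 N).filter (fun m : ℕ => (m : ZMod (p ^ j)) = (m' : ZMod (p ^ j))) ∪
          (Finset.Icc 1 N).filter (fun m : ℕ => (m : ZMod (p ^ j)) = -(m' : ZMod (p ^ j))) := by
        intro m hm
        simp only [Finset.mem_filter, Finset.mem_union] at hm ⊢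
        rcases eq_or_eq_neg_of_pow_dvd hpp hj hn.2 hm.2 hm'.2 with h | h
        · left; exact ⟨hm.1, h⟩
        · right; exact ⟨hm.1, h⟩
      refine (Finset.card_le_card hsub).trans ((Finset.card_union_le _ _).trans ?_)
      have e1 := c1_le N (p ^ j) (m' : ZMod (p ^ j))
      have e2 := c1_le N (p ^ j) (-(m' : ZMod (p ^ j)))
      unfold c1 at e1 e2
      omega
  rw [cnt]
  refine (Finset.card_le_card hsplit).trans ((Finset.card_union_le _ _).trans ?_)
  refine add_le_add ?_ ?_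
  · refine Finset.card_biUnion_le.trans ?_
    refine (Finset.sum_le_sum hone).trans ?_
    rw [Finset.sum_const, smul_eq_mul]
    refine Nat.mul_le_mul_right _ ?_
    refine (Finset.card_filter_le _ _).trans ?_
    simp
  · exact Finset.card_image_le

lemma cnt_pow_le (p : ℕ) (hpp : p.Prime) (j : ℕ) : ∀ N : ℕ,
    (cnt N (p ^ j) : ℝ) ≤ (j + 2) * (N : ℝ) ^ 2 / (p : ℝ) ^ j + 4 * N := by
  have hp0 : (0 : ℝ) < p := by exact_mod_cast hpp.pos
  have hp2 : (2 : ℝ) ≤ p := by exact_mod_cast hpp.two_le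
  induction j using Nat.strong_induction_on with
  | _ j ih =>
    intro N
    have hN : (0 : ℝ) ≤ N := Nat.cast_nonneg N
    rcases Nat.eq_zero_or_pos j with h0 | hpos
    · subst h0
      have h1 : cnt N (p ^ 0) ≤ N * N := by
        rw [cnt]
        refine (Finset.card_filter_le _ _).trans ?_
        rw [box, Finset.card_product]
        simp
      have h2 : (cnt N (p ^ 0) : ℝ) ≤ N * N := by exact_mod_cast h1
      simp only [pow_zero, div_one, Nat.cast_zero, zero_add] at h2 ⊢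
      nlinarith
    · have h1 := cnt_pow_rec N p j hpp hpos
      have h2 : (cnt N (p ^ j) : ℝ) ≤ N * (2 * (((N / p ^ j : ℕ) : ℝ) + 1)) +
          (cnt (N / p) (p ^ (j - 2)) : ℝ) := by exact_mod_cast h1
      have h3 := ih (j - 2) (by omega) (N / p)
      have h4 : ((N / p ^ j : ℕ) : ℝ) ≤ N / (p : ℝ) ^ j := by
        have := Nat.cast_div_le (α := ℝ) (m := N) (n := p ^ j)
        push_cast at this
        exact this
      have h5 : ((N / p : ℕ) : ℝ) ≤ N / p := Nat.cast_div_le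
      have h6 : (0 : ℝ) ≤ ((N / p : ℕ) : ℝ) := Nat.cast_nonneg _
      have h7 : ((N / p : ℕ) : ℝ) ^ 2 ≤ ((N : ℝ) / p) ^ 2 := by gcongr
      have hpj : (0 : ℝ) < (p : ℝ) ^ j := pow_pos hp0 j
      have h8 : (N : ℝ) * (2 * (((N / p ^ j : ℕ) : ℝ) + 1)) ≤ N * (2 * (N / (p : ℝ) ^ j + 1)) := by
        gcongr
      have h9 : 4 * ((N / p : ℕ) : ℝ) ≤ 2 * N := by
        have : (N : ℝ) / p ≤ N / 2 := by
          apply div_le_div_of_nonneg_left hN (by norm_num) hp2
        linarith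
      have h10 : ((j - 2 : ℕ) + 2 : ℝ) * ((N / p : ℕ) : ℝ) ^ 2 / (p : ℝ) ^ (j - 2) ≤
          j * (N : ℝ) ^ 2 / (p : ℝ) ^ j := by
        rcases Nat.lt_or_ge j 2 with hj2 | hj2
        · have hj1 : j = 1 := by omega
          subst hj1
          simp only [show 1 - 2 = 0 by norm_num, Nat.cast_zero, zero_add, pow_zero, div_one,
            Nat.cast_one, one_mul, pow_one]
          have : ((N : ℝ) / p) ^ 2 = (N : ℝ) ^ 2 / p * (1 / p) := by field_simp
          have h12 : (1 : ℝ) / p ≤ 1 / 2 := by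
            apply div_le_div_of_nonneg_left (by norm_num) (by norm_num) hp2
          have h13 : (0 : ℝ) ≤ (N : ℝ) ^ 2 / p := by positivity
          nlinarith
        · have hc : ((j - 2 : ℕ) : ℝ) + 2 = j := by
            rw [Nat.cast_sub hj2]; push_cast; ring
          rw [hc]
          have hpe : (p : ℝ) ^ j = (p : ℝ) ^ (j - 2) * (p : ℝ) ^ 2 := by
            rw [← pow_add]; congr 1; omega
          rw [hpe]
          calc (j : ℝ) * ((N / p : ℕ) : ℝ) ^ 2 / (p : ℝ) ^ (j - 2)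
              ≤ j * ((N : ℝ) / p) ^ 2 / (p : ℝ) ^ (j - 2) := by gcongr
            _ = j * (N : ℝ) ^ 2 / ((p : ℝ) ^ (j - 2) * (p : ℝ) ^ 2) := by field_simp
      have h11 : ((j : ℝ) + 2) * (N : ℝ) ^ 2 / (p : ℝ) ^ j =
          j * (N : ℝ) ^ 2 / (p : ℝ) ^ j + N * (2 * (N / (p : ℝ) ^ j)) := by
        field_simp
      rw [h11]
      have h12 : (N : ℝ) * (2 * (N / (p : ℝ) ^ j + 1)) = N * (2 * (N / (p : ℝ) ^ j)) + 2 * N := by
        ring
      linarith

end Pool.Agent.Lib.MP_696bea_an
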