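import Mathlib
import Pool.Agent.Lib.MP_696bea_an.Count

/-!
Second moment (Turan) for the number of small primes `p = 1 mod 4` dividing `m^2 + n^2`.
-/

set_option autoImplicit false

namespace Pool.Agent.Lib.MP_696bea_an

/-- primes up to `y` congruent to `1` mod `4`. -/
def S (y : ℕ) : Finset ℕ := (Finset.Icc 1 y).filter (fun p => p.Prime ∧ p % 4 = 1)

/-- local density of the pairs with `p ∣ m^2+n^2`. -/
noncomputable def dens (p : ℕ) : ℝ := (2 * p - 1) / (p : ℝ) ^ 2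

/-- the centre. -/
noncomputable def ctr (y : ℕ) : ℝ := ∑ p ∈ S y, dens p

/-- number of `p ∈ S y` dividing `m^2+n^2`. -/
noncomputable def om (y : ℕ) (z : ℕ × ℕ) : ℝ := ∑ p ∈ S y, if p ∣ ssq z then 1 else 0

lemma mem_S {y p : ℕ} : p ∈ S y ↔ (1 ≤ p ∧ p ≤ y) ∧ p.Prime ∧ p % 4 = 1 := by
  simp [S]

lemma dens_nonneg {p : ℕ} (hp : 1 ≤ p) : 0 ≤ dens p := by
  have : (1 : ℝ) ≤ p := by exact_mod_cast hp
  unfold dens
  apply div_nonneg <;> nlinarith

lemma dens_le_one {p : ℕ} (hp : 1 ≤ p) : dens p ≤ 1 := by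
  have h1 : (1 : ℝ) ≤ p := by exact_mod_cast hp
  unfold dens
  rw [div_le_one (by positivity)]
  nlinarith [sq_nonneg ((p : ℝ) - 1)]

lemma dens_ge {p : ℕ} (hp : 1 ≤ p) : 1 / (p : ℝ) ≤ dens p := by
  have h1 : (1 : ℝ) ≤ p := by exact_mod_cast hp
  unfold dens
  rw [div_le_div_iff₀ (by positivity) (by positivity)]
  nlinarith

lemma card_S_le (y : ℕ) : (S y).card ≤ y := by
  refine (Finset.card_filter_le _ _).trans ?_
  simp

lemma ctr_nonneg (y : ℕ) : 0 ≤ ctr y :=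
  Finset.sum_nonneg fun _ hp => dens_nonneg (mem_S.1 hp).1.1

lemma ctr_le (y : ℕ) : ctr y ≤ y := by
  calc ctr y ≤ ∑ p ∈ S y, (1 : ℝ) := Finset.sum_le_sum fun p hp => dens_le_one (mem_S.1 hp).1.1
    _ = (S y).card := by simp
    _ ≤ y := by exact_mod_cast card_S_le y

lemma sum_indicator_eq_cnt (N d : ℕ) :
    ∑ z ∈ box N, (if d ∣ ssq z then (1 : ℝ) else 0) = cnt N d := by
  rw [cnt, Finset.card_filter]
  push_cast
  rfl

lemma sum_pair_le (y N p q : ℕ) (hp : p ∈ S y) (hq : q ∈ S y) :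
    ∑ z ∈ box N, (if p ∣ ssq z then (1 : ℝ) else 0) * (if q ∣ ssq z then (1 : ℝ) else 0) ≤
      (N : ℝ) ^ 2 * dens p * dens q + (if p = q then (N : ℝ) ^ 2 * dens p else 0) +
        (8 * N + 4 * (y : ℝ) ^ 2) := by
  obtain ⟨⟨hp1, hpy⟩, hpp, hp4⟩ := mem_S.1 hp
  obtain ⟨⟨hq1, hqy⟩, hqq, hq4⟩ := mem_S.1 hq
  have hpy' : (p : ℝ) ≤ y := by exact_mod_cast hpy
  have hqy' : (q : ℝ) ≤ y := by exact_mod_cast hqy
  have hp1' : (1 : ℝ) ≤ p := by exact_mod_cast hp1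
  have hq1' : (1 : ℝ) ≤ q := by exact_mod_cast hq1
  have hN : (0 : ℝ) ≤ N := Nat.cast_nonneg N
  by_cases h : p = q
  · subst h
    have h1 : ∀ z, (if p ∣ ssq z then (1 : ℝ) else 0) * (if p ∣ ssq z then (1 : ℝ) else 0) =
        (if p ∣ ssq z then (1 : ℝ) else 0) := by
      intro z; split_ifs <;> simp
    simp only [h1, if_true]
    rw [sum_indicator_eq_cnt]
    have h2 := cnt_prime_le N p hpp hp4
    have h3 : 0 ≤ (N : ℝ) ^ 2 * dens p * dens p := by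
      have := dens_nonneg hp1
      positivity
    have h4 : (N : ℝ) ^ 2 * ((2 * p - 1) / (p : ℝ) ^ 2) = (N : ℝ) ^ 2 * dens p := rfl
    rw [h4] at h2
    have h5 : 2 * (p : ℝ) ≤ 4 * (y : ℝ) ^ 2 := by nlinarith
    linarith
  · have h1 : ∀ z, (if p ∣ ssq z then (1 : ℝ) else 0) * (if q ∣ ssq z then (1 : ℝ) else 0) =
        (if p * q ∣ ssq z then (1 : ℝ) else 0) := by
      intro z
      have hc : Nat.Coprime p q := (Nat.coprime_primes hpp hqq).2 h
      by_cases hp' : p ∣ ssq z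
      · by_cases hq' : q ∣ ssq z
        · have := hc.mul_dvd_of_dvd_of_dvd hp' hq'
          simp [hp', hq', this]
        · have : ¬ p * q ∣ ssq z := fun h' => hq' ((dvd_mul_left q p).trans h')
          simp [hq', this]
      · have : ¬ p * q ∣ ssq z := fun h' => hp' ((dvd_mul_right p q).trans h')
        simp [hp', this]
    simp only [h1, h, if_false, add_zero]
    rw [sum_indicator_eq_cnt]
    have h2 := cnt_two_primes_le N p q hpp hp4 hqq hq4 h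
    have h4 : (N : ℝ) ^ 2 * ((2 * p - 1) / (p : ℝ) ^ 2) * ((2 * q - 1) / (q : ℝ) ^ 2) =
      (N : ℝ) ^ 2 * dens p * dens q := rfl
    rw [h4] at h2
    have h5 : 4 * (p : ℝ) * q ≤ 4 * (y : ℝ) ^ 2 := by nlinarith
    linarith

/-- Turan's inequality. -/
lemma second_moment (y : ℕ) (hy : 1 ≤ y) :
    ∑ z ∈ box (y ^ 4), (om y z - ctr y) ^ 2 ≤ ((y : ℝ) ^ 4) ^ 2 * (ctr y + 20) := by
  set N : ℕ := y ^ 4 with hN
  have hNr : (N : ℝ) = (y : ℝ) ^ 4 := by rw [hN]; push_cast; ring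
  have hy1 : (1 : ℝ) ≤ y := by exact_mod_cast hy
  have hN0 : (0 : ℝ) ≤ N := Nat.cast_nonneg N
  have hc0 := ctr_nonneg y
  have hcy := ctr_le y
  have hcard : ((S y).card : ℝ) ≤ y := by exact_mod_cast card_S_le y
  have hcard0 : (0 : ℝ) ≤ ((S y).card : ℝ) := Nat.cast_nonneg _
  -- first moment
  have hfirst : (N : ℝ) ^ 2 * ctr y - 4 * N * (S y).card ≤ ∑ z ∈ box N, om y z := by
    simp only [om]
    rw [Finset.sum_comm]
    have h1 : ∀ p ∈ S y, (N : ℝ) ^ 2 * dens p - 4 * N ≤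
        ∑ z ∈ box N, (if p ∣ ssq z then (1 : ℝ) else 0) := by
      intro p hp
      rw [sum_indicator_eq_cnt]
      exact cnt_prime_ge N p (mem_S.1 hp).2.1 (mem_S.1 hp).2.2
    refine le_trans ?_ (Finset.sum_le_sum h1)
    rw [Finset.sum_sub_distrib, ← Finset.mul_sum, Finset.sum_const, nsmul_eq_mul]
    rw [ctr]
    linarith
  -- second moment
  have hsecond : ∑ z ∈ box N, om y z ^ 2 ≤ (N : ℝ) ^ 2 * ctr y * ctr y + (N : ℝ) ^ 2 * ctr y +
      (S y).card * ((S y).card * (8 * N + 4 * (y : ℝ) ^ 2)) := by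
    have h1 : ∑ z ∈ box N, om y z ^ 2 = ∑ p ∈ S y, ∑ q ∈ S y, ∑ z ∈ box N,
        (if p ∣ ssq z then (1 : ℝ) else 0) * (if q ∣ ssq z then (1 : ℝ) else 0) := by
      have : ∀ z, om y z ^ 2 = ∑ p ∈ S y, ∑ q ∈ S y,
        (if p ∣ ssq z then (1 : ℝ) else 0) * (if q ∣ ssq z then (1 : ℝ) else 0) := by
        intro z
        rw [sq, om, Finset.sum_mul_sum]
      simp only [this]
      rw [Finset.sum_comm]
      refine Finset.sum_congr rfl fun p _ => ?_
      rw [Finset.sum_comm]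
    rw [h1]
    have h2 : ∀ p ∈ S y, ∑ q ∈ S y, ∑ z ∈ box N,
        (if p ∣ ssq z then (1 : ℝ) else 0) * (if q ∣ ssq z then (1 : ℝ) else 0) ≤
        (N : ℝ) ^ 2 * dens p * ctr y + (N : ℝ) ^ 2 * dens p +
          (S y).card * (8 * N + 4 * (y : ℝ) ^ 2) := by
      intro p hp
      refine (Finset.sum_le_sum fun q hq => sum_pair_le y N p q hp hq).trans ?_
      rw [Finset.sum_add_distrib, Finset.sum_add_distrib, ← Finset.mul_sum, Finset.sum_const,
        nsmul_eq_mul, Finset.sum_ite_eq, if_pos hp, ← ctr]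
    refine (Finset.sum_le_sum h2).trans ?_
    rw [Finset.sum_add_distrib, Finset.sum_add_distrib, Finset.sum_const, nsmul_eq_mul,
      ← Finset.sum_mul, ← Finset.mul_sum, ← ctr]
  have hcardbox : ((box N).card : ℝ) = (N : ℝ) ^ 2 := by
    rw [box, Finset.card_product]; simp; ring
  have hexp : ∑ z ∈ box N, (om y z - ctr y) ^ 2 =
      ∑ z ∈ box N, om y z ^ 2 - 2 * ctr y * ∑ z ∈ box N, om y z + (N : ℝ) ^ 2 * ctr y ^ 2 := by
    have : ∀ z, (om y z - ctr y) ^ 2 = om y z ^ 2 - 2 * ctr y * om y z + ctr y ^ 2 := by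
      intro z; ring
    simp only [this]
    rw [Finset.sum_add_distrib, Finset.sum_sub_distrib, ← Finset.mul_sum, Finset.sum_const,
      nsmul_eq_mul, hcardbox]
  rw [hexp]
  have h3 : 2 * ctr y * ((N : ℝ) ^ 2 * ctr y - 4 * N * (S y).card) ≤
      2 * ctr y * ∑ z ∈ box N, om y z := mul_le_mul_of_nonneg_left hfirst (by linarith)
  have h4 : ((S y).card : ℝ) * ((S y).card * (8 * N + 4 * (y : ℝ) ^ 2)) ≤
      y * (y * (8 * N + 4 * (y : ℝ) ^ 2)) := by gcongr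
  have h5 : 8 * ctr y * N * (S y).card ≤ 8 * y * N * y := by gcongr
  have h6 : (y : ℝ) * (y * (8 * N + 4 * (y : ℝ) ^ 2)) + 8 * y * N * y ≤ (N : ℝ) ^ 2 * 20 := by
    rw [hNr]
    have e1 : (y : ℝ) ^ 6 ≤ y ^ 8 := pow_le_pow_right₀ hy1 (by norm_num)
    have e2 : (y : ℝ) ^ 4 ≤ y ^ 8 := pow_le_pow_right₀ hy1 (by norm_num)
    nlinarith
  rw [← hNr]
  nlinarith

end Pool.Agent.Lib.MP_696bea_an
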