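import Mathlib
import Pool.Agent.Lib.MP_696bea_an.Moment

/-!
Concentration of `Omega (m^2 + n^2)` on the box `[1, y^4]^2`.
-/

set_option autoImplicit false

namespace Pool.Agent.Lib.MP_696bea_an

open ArithmeticFunction

/-- number of prime powers `p^i`, `2 <= i < b`, dividing `k`. -/
def ee (p b k : ℕ) : ℕ := ((Finset.Ico 2 b).filter (fun i => p ^ i ∣ k)).card

lemma fact_eq (p b k : ℕ) (hp : p.Prime) (hk : 0 < k) (hb : k < 2 ^ b) (hb2 : 2 ≤ b) :
    k.factorization p = (if p ∣ k then 1 else 0) + ee p b k := by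
  classical
  have h1 : k < p ^ b := hb.trans_le (Nat.pow_le_pow_left hp.two_le b)
  rw [Nat.factorization_eq_card_pow_dvd_of_lt hp hk h1, ee]
  have h2 : Finset.Ico 1 b = insert 1 (Finset.Ico 2 b) := by
    ext x; simp only [Finset.mem_Ico, Finset.mem_insert]; omega
  rw [h2, Finset.filter_insert]
  simp only [pow_one]
  split_ifs with h
  · rw [Finset.card_insert_of_notMem (by simp)]
    omega
  · omega

lemma dvd_both_of_three_mod_four {p m n : ℕ} (hp : p.Prime) (hp3 : p % 4 = 3)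
    (h : p ∣ m ^ 2 + n ^ 2) : p ∣ m ∧ p ∣ n := by
  haveI : Fact p.Prime := ⟨hp⟩
  have h0 : (m : ZMod p) ^ 2 + (n : ZMod p) ^ 2 = 0 := by
    have := (ZMod.natCast_eq_zero_iff (m ^ 2 + n ^ 2) p).2 h
    push_cast at this
    exact this
  have hn : (n : ZMod p) = 0 := by
    by_contra hne
    have : IsSquare (-1 : ZMod p) := by
      refine ⟨(m : ZMod p) / n, ?_⟩
      have h2 : (m : ZMod p) ^ 2 = - (n : ZMod p) ^ 2 := eq_neg_of_add_eq_zero_left h0
      rw [← sq, div_pow, h2, neg_div, div_self (pow_ne_zero 2 hne)]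
    exact (ZMod.exists_sq_eq_neg_one_iff.1 this) hp3
  have hm : (m : ZMod p) = 0 := by
    rw [hn] at h0
    simpa using h0
  exact ⟨(ZMod.natCast_eq_zero_iff m p).1 hm, (ZMod.natCast_eq_zero_iff n p).1 hn⟩

lemma small_prime_bound (y p b : ℕ) (z : ℕ × ℕ) (hz : 0 < ssq z) (hp : p.Prime) (hpy : p ≤ y)
    (hb : ssq z < 2 ^ b) (hb2 : 2 ≤ b) :
    (ssq z).factorization p ≤ (if p ∈ S y ∧ p ∣ ssq z then 1 else 0) + (if p = 2 then 1 else 0) +
      2 * ee p b (ssq z) := by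
  classical
  rw [fact_eq p b (ssq z) hp hz hb hb2]
  have hmod : p = 2 ∨ p % 4 = 1 ∨ p % 4 = 3 := by
    rcases hp.eq_two_or_odd with h | h
    · left; exact h
    · right; omega
  rcases hmod with h | h | h
  · have : (if p ∣ ssq z then 1 else 0) ≤ (if p = 2 then 1 else 0) := by
      rw [if_pos h]; split_ifs <;> omega
    omega
  · have hS : p ∈ S y := mem_S.2 ⟨⟨hp.one_lt.le, hpy⟩, hp, h⟩
    simp only [hS, true_and]
    omega
  · by_cases hd : p ∣ ssq z
    · have h2 := dvd_both_of_three_mod_four hp h hd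
      have h3 : p ^ 2 ∣ ssq z := by
        unfold ssq
        exact dvd_add (pow_dvd_pow_of_dvd h2.1 2) (pow_dvd_pow_of_dvd h2.2 2)
      have h4 : 2 < b := by
        by_contra hcon
        have hb' : b = 2 := by omega
        subst hb'
        have h5 := Nat.le_of_dvd hz h3
        have h6 : 2 ^ 2 ≤ p ^ 2 := Nat.pow_le_pow_left hp.two_le 2
        omega
      have h5 : 1 ≤ ee p b (ssq z) := by
        rw [ee, Nat.succ_le_iff, Finset.card_pos]
        exact ⟨2, by simp [h4, h3]⟩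
      simp only [hd, if_true]
      omega
    · simp only [hd, if_false]
      omega

lemma large_primes (y k : ℕ) (hy : 1 ≤ y) (hk : 0 < k) (hk2 : k ≤ 2 * y ^ 8) :
    ∑ p ∈ k.primeFactors.filter (fun p => ¬ p ≤ y), k.factorization p ≤ 8 := by
  by_contra hcon
  rw [not_le] at hcon
  set s := k.primeFactors.filter (fun p => ¬ p ≤ y) with hs
  have h1 : (y + 1) ^ 9 ≤ k := by
    calc (y + 1) ^ 9 ≤ (y + 1) ^ (∑ p ∈ s, k.factorization p) :=
          Nat.pow_le_pow_right (by omega) hcon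
      _ = ∏ p ∈ s, (y + 1) ^ k.factorization p := by rw [Finset.prod_pow_eq_pow_sum]
      _ ≤ ∏ p ∈ s, p ^ k.factorization p := by
          refine Finset.prod_le_prod' fun p hp => ?_
          have : y + 1 ≤ p := by
            have := (Finset.mem_filter.1 hp).2
            omega
          exact Nat.pow_le_pow_left this _
      _ ≤ ∏ p ∈ k.primeFactors, p ^ k.factorization p := by
          refine Finset.prod_le_prod_of_subset_of_one_le' (Finset.filter_subset _ _) ?_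
          intro p hp _
          exact Nat.one_le_pow _ _ (Nat.prime_of_mem_primeFactors hp).pos
      _ = k := Nat.prod_factorization_pow_eq_self hk.ne'
  have h2 : 2 * y ^ 8 < (y + 1) ^ 9 := by
    have h3 : y ^ 8 ≤ (y + 1) ^ 8 := Nat.pow_le_pow_left (by omega) 8
    have h4 : (y + 1) ^ 9 = (y + 1) ^ 8 * (y + 1) := by ring
    have h5 : 0 < (y + 1) ^ 8 := by positivity
    have h6 : y ^ 8 < (y + 1) ^ 8 := Nat.pow_lt_pow_left (by omega) (by norm_num)
    nlinarith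
  omega

lemma om_eq (y : ℕ) (z : ℕ × ℕ) :
    om y z = ((∑ p ∈ (Finset.Icc 1 y).filter Nat.Prime,
      (if p ∈ S y ∧ p ∣ ssq z then 1 else 0) : ℕ) : ℝ) := by
  classical
  push_cast
  rw [om]
  have hsub : S y ⊆ (Finset.Icc 1 y).filter Nat.Prime := by
    intro p hp
    obtain ⟨⟨h1, h2⟩, h3, _⟩ := mem_S.1 hp
    simp [h1, h2, h3]
  rw [← Finset.sum_subset hsub]
  · refine Finset.sum_congr rfl fun p hp => ?_
    simp [hp]
  · intro p _ hp
    simp [hp]

/-- total number of higher prime powers. -/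
def rest (y b : ℕ) (z : ℕ × ℕ) : ℕ := ∑ p ∈ (Finset.Icc 1 y).filter Nat.Prime, ee p b (ssq z)

/-- Lower bound: `om <= Omega`. -/
lemma om_le (y : ℕ) (z : ℕ × ℕ) (hz : 0 < ssq z) : om y z ≤ (cardFactors (ssq z) : ℝ) := by
  classical
  rw [om, cardFactors_eq_sum_factorization, Finsupp.sum]
  push_cast
  rw [← Finset.sum_filter]
  have hsub : (S y).filter (fun p => p ∣ ssq z) ⊆ (ssq z).factorization.support := by
    intro p hp
    obtain ⟨h1, h2⟩ := Finset.mem_filter.1 hp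
    rw [Nat.support_factorization, Nat.mem_primeFactors]
    exact ⟨(mem_S.1 h1).2.1, h2, hz.ne'⟩
  refine le_trans ?_ (Finset.sum_le_sum_of_subset_of_nonneg hsub fun _ _ _ => Nat.cast_nonneg _)
  refine Finset.sum_le_sum fun p hp => ?_
  obtain ⟨h1, h2⟩ := Finset.mem_filter.1 hp
  have : 1 ≤ (ssq z).factorization p :=
    (mem_S.1 h1).2.1.factorization_pos_of_dvd hz.ne' h2
  exact_mod_cast this

/-- Upper bound for `Omega`. -/
lemma omega_le (y b : ℕ) (hy : 1 ≤ y) (z : ℕ × ℕ) (hz : 0 < ssq z) (hz2 : ssq z ≤ 2 * y ^ 8)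
    (hb : ssq z < 2 ^ b) (hb2 : 2 ≤ b) :
    (cardFactors (ssq z) : ℝ) ≤ om y z + 9 + 2 * rest y b z := by
  classical
  have h1 : cardFactors (ssq z) ≤ (∑ p ∈ (Finset.Icc 1 y).filter Nat.Prime,
      (if p ∈ S y ∧ p ∣ ssq z then 1 else 0)) + 9 + 2 * rest y b z := by
    rw [cardFactors_eq_sum_factorization, Finsupp.sum, Nat.support_factorization,
      ← Finset.sum_filter_add_sum_filter_not _ (fun p => p ≤ y)]
    have hl := large_primes y (ssq z) hy hz hz2
    have hs : ∑ p ∈ (ssq z).primeFactors.filter (fun p => p ≤ y), (ssq z).factorization p ≤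
        ∑ p ∈ (Finset.Icc 1 y).filter Nat.Prime,
          ((if p ∈ S y ∧ p ∣ ssq z then 1 else 0) + (if p = 2 then 1 else 0) +
            2 * ee p b (ssq z)) := by
      have hsub : (ssq z).primeFactors.filter (fun p => p ≤ y) ⊆
          (Finset.Icc 1 y).filter Nat.Prime := by
        intro p hp
        obtain ⟨h1, h2⟩ := Finset.mem_filter.1 hp
        have h3 := Nat.prime_of_mem_primeFactors h1
        simp [h3.one_lt.le, h2, h3]
      refine le_trans (Finset.sum_le_sum fun p hp => ?_)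
        (Finset.sum_le_sum_of_subset hsub)
      obtain ⟨h1, h2⟩ := Finset.mem_filter.1 hp
      exact small_prime_bound y p b z hz (Nat.prime_of_mem_primeFactors h1) h2 hb hb2
    rw [Finset.sum_add_distrib, Finset.sum_add_distrib, ← Finset.mul_sum] at hs
    have h2 : ∑ p ∈ (Finset.Icc 1 y).filter Nat.Prime, (if p = 2 then 1 else 0) ≤ 1 := by
      rw [Finset.sum_ite_eq']
      split_ifs <;> omega
    unfold rest
    omega
  have h2 : (cardFactors (ssq z) : ℝ) ≤ (((∑ p ∈ (Finset.Icc 1 y).filter Nat.Prime,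
      (if p ∈ S y ∧ p ∣ ssq z then 1 else 0)) + 9 + 2 * rest y b z : ℕ) : ℝ) := by
    exact_mod_cast h1
  rw [om_eq]
  push_cast at h2 ⊢
  exact h2

lemma geom_aux (b : ℕ) : ∑ i ∈ Finset.Ico 2 (b + 2), ((i : ℝ) + 2) / 2 ^ (i - 2) ≤
    10 - ((b : ℝ) + 5) / 2 ^ b * 2 := by
  induction b with
  | zero => simp; norm_num
  | succ b ih =>
    rw [Finset.sum_Ico_succ_top (by omega)]
    have h1 : b + 2 - 2 = b := by omega
    have h2 : ((b + 2 : ℕ) : ℝ) + 2 = b + 4 := by push_cast; ring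
    rw [h1, h2]
    have h3 : ((b + 1 : ℕ) : ℝ) + 5 = b + 6 := by push_cast; ring
    rw [h3]
    have h4 : ((b : ℝ) + 6) / 2 ^ (b + 1) * 2 = (b + 6) / 2 ^ b := by
      rw [pow_succ]; field_simp
    rw [h4]
    have h5 : ((b : ℝ) + 5) / 2 ^ b * 2 = (b + 6) / 2 ^ b + (b + 4) / 2 ^ b := by
      rw [← add_div]; ring
    linarith

lemma prime_tail (p b : ℕ) (hp : 2 ≤ p) :
    ∑ i ∈ Finset.Ico 2 b, ((i : ℝ) + 2) / (p : ℝ) ^ i ≤ 10 / (p : ℝ) ^ 2 := by
  have hp2 : (2 : ℝ) ≤ p := by exact_mod_cast hp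
  have hp0 : (0 : ℝ) < p := by linarith
  rcases Nat.lt_or_ge b 2 with h | h
  · rw [Finset.Ico_eq_empty (by omega)]
    simp only [Finset.sum_empty]
    positivity
  · obtain ⟨c, rfl⟩ : ∃ c, b = c + 2 := ⟨b - 2, by omega⟩
    have h1 : ∀ i ∈ Finset.Ico 2 (c + 2), ((i : ℝ) + 2) / (p : ℝ) ^ i ≤
        1 / (p : ℝ) ^ 2 * (((i : ℝ) + 2) / 2 ^ (i - 2)) := by
      intro i hi
      have hi2 : 2 ≤ i := (Finset.mem_Ico.1 hi).1
      have h2 : (p : ℝ) ^ i = (p : ℝ) ^ 2 * (p : ℝ) ^ (i - 2) := by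
        rw [← pow_add]; congr 1; omega
      rw [h2, div_mul_div_comm, one_mul]
      apply div_le_div_of_nonneg_left (by positivity) (by positivity)
      have h3 : (2 : ℝ) ^ (i - 2) ≤ (p : ℝ) ^ (i - 2) := by gcongr
      exact mul_le_mul_of_nonneg_left h3 (by positivity)
    refine (Finset.sum_le_sum h1).trans ?_
    rw [← Finset.mul_sum]
    have h4 := geom_aux c
    have h5 : 0 ≤ ((c : ℝ) + 5) / 2 ^ c * 2 := by positivity
    calc 1 / (p : ℝ) ^ 2 * ∑ i ∈ Finset.Ico 2 (c + 2), ((i : ℝ) + 2) / 2 ^ (i - 2)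
        ≤ 1 / (p : ℝ) ^ 2 * 10 := by
          apply mul_le_mul_of_nonneg_left _ (by positivity)
          linarith
      _ = 10 / (p : ℝ) ^ 2 := by ring

lemma sum_inv_sq (y : ℕ) : ∑ p ∈ (Finset.Icc 1 y).filter Nat.Prime, 10 / (p : ℝ) ^ 2 ≤ 10 := by
  have h1 : ∑ p ∈ (Finset.Icc 1 y).filter Nat.Prime, 10 / (p : ℝ) ^ 2 ≤
      ∑ p ∈ Finset.Icc 2 (y + 1), 10 / (p : ℝ) ^ 2 := by
    refine Finset.sum_le_sum_of_subset_of_nonneg ?_ fun _ _ _ => by positivity
    intro p hp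
    simp only [Finset.mem_filter, Finset.mem_Icc] at hp ⊢
    have := hp.2.two_le
    omega
  refine h1.trans ?_
  have h2 : ∀ y : ℕ, ∑ p ∈ Finset.Icc 2 (y + 1), 10 / (p : ℝ) ^ 2 ≤ 10 - 10 / ((y : ℝ) + 1) := by
    intro y
    induction y with
    | zero => simp
    | succ y ih =>
      rw [Finset.sum_Icc_succ_top (by omega)]
      have h3 : (10 : ℝ) / ((y + 1 + 1 : ℕ) : ℝ) ^ 2 ≤ 10 / ((y : ℝ) + 1) - 10 / ((y : ℝ) + 1 + 1) := by
        push_cast
        rw [div_sub_div _ _ (by positivity) (by positivity), div_le_div_iff₀ (by positivity) (by positivity)]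
        ring_nf
        nlinarith [(Nat.cast_nonneg y : (0:ℝ) ≤ y)]
      push_cast at h3 ⊢
      linarith
  have h3 := h2 y
  have h4 : (0 : ℝ) ≤ 10 / ((y : ℝ) + 1) := by positivity
  linarith

lemma rest_sum (y b : ℕ) (hy : 1 ≤ y) (hb : b ≤ 10 * y) :
    ∑ z ∈ box (y ^ 4), (rest y b z : ℝ) ≤ ((y : ℝ) ^ 4) ^ 2 * 50 := by
  classical
  set N : ℕ := y ^ 4 with hN
  have hNr : (N : ℝ) = (y : ℝ) ^ 4 := by rw [hN]; push_cast; ring
  have hy1 : (1 : ℝ) ≤ y := by exact_mod_cast hy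
  have hN0 : (0 : ℝ) ≤ N := Nat.cast_nonneg N
  have h1 : ∑ z ∈ box N, (rest y b z : ℝ) = ∑ p ∈ (Finset.Icc 1 y).filter Nat.Prime,
      ∑ i ∈ Finset.Ico 2 b, (cnt N (p ^ i) : ℝ) := by
    have e1 : ∀ z, (rest y b z : ℝ) = ∑ p ∈ (Finset.Icc 1 y).filter Nat.Prime,
        ∑ i ∈ Finset.Ico 2 b, (if p ^ i ∣ ssq z then (1 : ℝ) else 0) := by
      intro z
      rw [rest]
      push_cast
      refine Finset.sum_congr rfl fun p _ => ?_
      rw [ee, Finset.card_filter]
      push_cast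
      rfl
    simp only [e1]
    rw [Finset.sum_comm]
    refine Finset.sum_congr rfl fun p _ => ?_
    rw [Finset.sum_comm]
    refine Finset.sum_congr rfl fun i _ => ?_
    exact sum_indicator_eq_cnt N (p ^ i)
  rw [h1]
  have h2 : ∀ p ∈ (Finset.Icc 1 y).filter Nat.Prime,
      ∑ i ∈ Finset.Ico 2 b, (cnt N (p ^ i) : ℝ) ≤
        (N : ℝ) ^ 2 * (10 / (p : ℝ) ^ 2) + 10 * y * (4 * N) := by
    intro p hp
    have hpp : p.Prime := (Finset.mem_filter.1 hp).2
    refine (Finset.sum_le_sum fun i _ => cnt_pow_le p hpp i N).trans ?_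
    rw [Finset.sum_add_distrib, Finset.sum_const, nsmul_eq_mul]
    refine add_le_add ?_ ?_
    · have e1 : ∀ i : ℕ, ((i : ℝ) + 2) * (N : ℝ) ^ 2 / (p : ℝ) ^ i =
          (N : ℝ) ^ 2 * (((i : ℝ) + 2) / (p : ℝ) ^ i) := by intro i; ring
      simp only [e1]
      rw [← Finset.mul_sum]
      exact mul_le_mul_of_nonneg_left (prime_tail p b hpp.two_le) (by positivity)
    · have e2 : (((Finset.Ico 2 b).card : ℕ) : ℝ) ≤ 10 * y := by
        rw [Nat.card_Ico]
        have : b - 2 ≤ 10 * y := by omega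
        exact_mod_cast this
      exact mul_le_mul_of_nonneg_right e2 (by positivity)
  refine (Finset.sum_le_sum h2).trans ?_
  rw [Finset.sum_add_distrib, ← Finset.mul_sum, Finset.sum_const, nsmul_eq_mul]
  have h3 := sum_inv_sq y
  have h4 : ((((Finset.Icc 1 y).filter Nat.Prime).card : ℕ) : ℝ) ≤ y := by
    have : ((Finset.Icc 1 y).filter Nat.Prime).card ≤ y := by
      refine (Finset.card_filter_le _ _).trans ?_
      simp
    exact_mod_cast this
  have h5 : ((((Finset.Icc 1 y).filter Nat.Prime).card : ℕ) : ℝ) * (10 * y * (4 * N)) ≤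
      y * (10 * y * (4 * N)) := mul_le_mul_of_nonneg_right h4 (by positivity)
  have h6 : (N : ℝ) ^ 2 * ∑ p ∈ (Finset.Icc 1 y).filter Nat.Prime, 10 / (p : ℝ) ^ 2 ≤
      (N : ℝ) ^ 2 * 10 := mul_le_mul_of_nonneg_left h3 (by positivity)
  have h7 : (y : ℝ) * (10 * y * (4 * N)) ≤ (N : ℝ) ^ 2 * 40 := by
    rw [hNr]
    have e1 : (y : ℝ) ^ 6 ≤ y ^ 8 := pow_le_pow_right₀ hy1 (by norm_num)
    nlinarith
  rw [← hNr]
  linarith

/-- Concentration of `Omega (m^2 + n^2)` on the box of side `y^4`. -/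
theorem concentration (y : ℕ) (hy : 1 ≤ y) (t : ℝ) (ht : 0 < t) :
    (((box (y ^ 4)).filter (fun z => 2 * t < |(cardFactors (ssq z) : ℝ) - ctr y|)).card : ℝ) ≤
      ((y : ℝ) ^ 4) ^ 2 * ((ctr y + 20) / t ^ 2 + 109 / t) := by
  classical
  set b : ℕ := 8 * y + 2 with hb
  have hbox : ∀ z ∈ box (y ^ 4), 0 < ssq z ∧ ssq z ≤ 2 * y ^ 8 ∧ ssq z < 2 ^ b := by
    intro z hz
    simp only [box, Finset.mem_product, Finset.mem_Icc] at hz
    obtain ⟨⟨h1, h2⟩, h3, h4⟩ := hz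
    have h5 : z.1 ^ 2 ≤ (y ^ 4) ^ 2 := Nat.pow_le_pow_left h2 2
    have h6 : z.2 ^ 2 ≤ (y ^ 4) ^ 2 := Nat.pow_le_pow_left h4 2
    have h7 : (y ^ 4) ^ 2 = y ^ 8 := by ring
    have h8 : 0 < z.1 ^ 2 := by positivity
    have h9 : ssq z ≤ 2 * y ^ 8 := by unfold ssq; omega
    refine ⟨by unfold ssq; omega, h9, ?_⟩
    have h10 : y ^ 8 ≤ (2 ^ y) ^ 8 := Nat.pow_le_pow_left (Nat.lt_two_pow_self).le 8
    have h11 : (2 ^ y) ^ 8 = 2 ^ (8 * y) := by rw [← pow_mul]; ring_nf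
    have h12 : 2 ^ b = 4 * 2 ^ (8 * y) := by rw [hb, pow_add]; ring
    have h13 : 0 < 2 ^ (8 * y) := by positivity
    omega
  -- the two exceptional sets
  set B1 := (box (y ^ 4)).filter (fun z => t < |om y z - ctr y|) with hB1
  set B2 := (box (y ^ 4)).filter (fun z => t < 9 + 2 * (rest y b z : ℝ)) with hB2
  have hsub : (box (y ^ 4)).filter (fun z => 2 * t < |(cardFactors (ssq z) : ℝ) - ctr y|) ⊆ B1 ∪ B2 := by
    intro z hz
    obtain ⟨hzb, hzt⟩ := Finset.mem_filter.1 hz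
    obtain ⟨h1, h2, h3⟩ := hbox z hzb
    have h4 := om_le y z h1
    have h5 := omega_le y b hy z h1 h2 h3 (by omega)
    rw [Finset.mem_union]
    by_contra hcon
    push Not at hcon
    have h6 : |om y z - ctr y| ≤ t := by
      by_contra h; exact hcon.1 (Finset.mem_filter.2 ⟨hzb, not_le.1 h⟩)
    have h7 : 9 + 2 * (rest y b z : ℝ) ≤ t := by
      by_contra h; exact hcon.2 (Finset.mem_filter.2 ⟨hzb, not_le.1 h⟩)
    have h8 := abs_le.1 h6
    have h9 : |(cardFactors (ssq z) : ℝ) - ctr y| ≤ 2 * t := by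
      rw [abs_le]; constructor <;> linarith
    linarith
  have hc1 : (B1.card : ℝ) * t ^ 2 ≤ ((y : ℝ) ^ 4) ^ 2 * (ctr y + 20) := by
    refine le_trans ?_ (second_moment y hy)
    calc (B1.card : ℝ) * t ^ 2 = ∑ z ∈ B1, t ^ 2 := by simp
      _ ≤ ∑ z ∈ B1, (om y z - ctr y) ^ 2 := by
          refine Finset.sum_le_sum fun z hz => ?_
          have h1 := (Finset.mem_filter.1 hz).2
          rw [← sq_abs (om y z - ctr y)]
          gcongr
      _ ≤ ∑ z ∈ box (y ^ 4), (om y z - ctr y) ^ 2 :=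
          Finset.sum_le_sum_of_subset_of_nonneg (Finset.filter_subset _ _)
            fun _ _ _ => sq_nonneg _
  have hcardbox : ((box (y ^ 4)).card : ℝ) = ((y : ℝ) ^ 4) ^ 2 := by
    rw [box, Finset.card_product]; simp; ring
  have hc2 : (B2.card : ℝ) * t ≤ ((y : ℝ) ^ 4) ^ 2 * 109 := by
    calc (B2.card : ℝ) * t = ∑ z ∈ B2, t := by simp
      _ ≤ ∑ z ∈ B2, (9 + 2 * (rest y b z : ℝ)) :=
          Finset.sum_le_sum fun z hz => (Finset.mem_filter.1 hz).2.le
      _ ≤ ∑ z ∈ box (y ^ 4), (9 + 2 * (rest y b z : ℝ)) :=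
          Finset.sum_le_sum_of_subset_of_nonneg (Finset.filter_subset _ _)
            fun _ _ _ => by positivity
      _ = 9 * ((y : ℝ) ^ 4) ^ 2 + 2 * ∑ z ∈ box (y ^ 4), (rest y b z : ℝ) := by
          rw [Finset.sum_add_distrib, ← Finset.mul_sum, Finset.sum_const, nsmul_eq_mul, hcardbox]
          ring
      _ ≤ ((y : ℝ) ^ 4) ^ 2 * 109 := by
          have := rest_sum y b hy (by omega)
          linarith
  have h1 : (((box (y ^ 4)).filter (fun z => 2 * t < |(cardFactors (ssq z) : ℝ) - ctr y|)).card : ℝ) ≤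
      B1.card + B2.card := by
    exact_mod_cast (Finset.card_le_card hsub).trans (Finset.card_union_le _ _)
  have h2 : (B1.card : ℝ) ≤ ((y : ℝ) ^ 4) ^ 2 * ((ctr y + 20) / t ^ 2) := by
    rw [← mul_div_assoc, le_div_iff₀ (by positivity)]
    exact hc1
  have h3 : (B2.card : ℝ) ≤ ((y : ℝ) ^ 4) ^ 2 * (109 / t) := by
    rw [← mul_div_assoc, le_div_iff₀ ht]
    exact hc2
  rw [mul_add]
  linarith

end Pool.Agent.Lib.MP_696bea_an
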