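import Mathlib

/-!
The sum of the reciprocals of the primes congruent to `1` modulo `4` diverges.
-/

set_option autoImplicit false

open Filter Topology

namespace Pool.Agent.Lib.MP_696bea_an

open ArithmeticFunction.vonMangoldt in
theorem not_summable_primes_one_mod_four :
    ¬ Summable (fun n : ℕ => if n.Prime ∧ n % 4 = 1 then (1 : ℝ) / n else 0) := by
  classical
  intro hS
  set g : ℕ → ℝ := fun n => if n.Prime ∧ n % 4 = 1 then (1 : ℝ) / n else 0 with hg
  have hg0 : ∀ n, 0 ≤ g n := by
    intro n
    simp only [hg]
    split_ifs <;> positivity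
  -- the residue class function
  set r : ℕ → ℝ := residueClass (1 : ZMod 4) with hr
  have hr0 : ∀ n, 0 ≤ r n := fun n => residueClass_nonneg _ n
  obtain ⟨C, hC⟩ := LSeries_residueClass_lower_bound (q := 4) (a := (1 : ZMod 4)) isUnit_one
  have htot : ((4 : ℕ).totient : ℝ)⁻¹ = 1 / 2 := by
    have : (4 : ℕ).totient = 2 := by decide
    rw [this]; norm_num
  have hnp : Summable fun n : ℕ => (if n.Prime then 0 else r n) / n :=
    summable_residueClass_non_primes_div (1 : ZMod 4)
  -- a finite set capturing most of the mass of g
  obtain ⟨s, hs⟩ : ∃ s : Finset ℕ, ∑' n : ℕ, (if n ∈ s then 0 else g n) ≤ 1 / 4 := by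
    have h1 := hS.hasSum
    have h2 := (tendsto_order.1 h1).1 (∑' n, g n - 1 / 4) (by linarith)
    obtain ⟨s, hs⟩ := h2.exists
    refine ⟨s, ?_⟩
    have h3 : ∑' n, g n = ∑ n ∈ s, g n + ∑' n, (if n ∈ s then 0 else g n) := by
      have h4 : (fun n => g n) = fun n => (if n ∈ s then g n else 0) +
          (if n ∈ s then 0 else g n) := by
        funext n
        split_ifs <;> simp
      have h5 : Summable fun n => (if n ∈ s then g n else 0) :=
        summable_of_ne_finset_zero (s := s) fun b hb => by simp [hb]
      have h6 : Summable fun n => (if n ∈ s then 0 else g n) := by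
        refine Summable.of_nonneg_of_le (fun n => ?_) (fun n => ?_) hS
        · split_ifs
          · exact le_rfl
          · exact hg0 n
        · split_ifs
          · exact hg0 n
          · exact le_rfl
      conv_lhs => rw [h4]
      rw [h5.tsum_add h6]
      congr 1
      rw [tsum_eq_sum (s := s) (fun b hb => by simp [hb])]
      exact Finset.sum_congr rfl fun n hn => by simp [hn]
    have h7 : (∑' n, g n) - 1 / 4 < ∑ n ∈ s, g n := hs
    linarith
  have hgs : Summable fun n => (if n ∈ s then 0 else g n) := by
    refine Summable.of_nonneg_of_le (fun n => ?_) (fun n => ?_) hS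
    · split_ifs
      · exact le_rfl
      · exact hg0 n
    · split_ifs
      · exact hg0 n
      · exact le_rfl
  have hsf : Summable fun n : ℕ => (if n ∈ s then r n / n else 0) :=
    summable_of_ne_finset_zero (s := s) fun b hb => by simp [hb]
  set C1 : ℝ := ∑' n : ℕ, (if n.Prime then 0 else r n) / n with hC1
  set C2 : ℝ := ∑' n : ℕ, (if n ∈ s then r n / n else 0) with hC2
  have key : ∀ x : ℝ, x ∈ Set.Ioc (1 : ℝ) 2 →
      ∑' n, r n / (n : ℝ) ^ x ≤ C1 + C2 + 1 / (x - 1) * (1 / 4) := by
    intro x hx
    have hx1 : 0 < x - 1 := by linarith [hx.1]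
    have hpt : ∀ n : ℕ, r n / (n : ℝ) ^ x ≤ (if n.Prime then 0 else r n) / n +
        (if n ∈ s then r n / n else 0) + 1 / (x - 1) * (if n ∈ s then 0 else g n) := by
      intro n
      have hA : 0 ≤ (if n.Prime then 0 else r n) / (n : ℝ) := by
        split_ifs
        · simp
        · exact div_nonneg (hr0 n) (Nat.cast_nonneg n)
      have hB : 0 ≤ (if n ∈ s then r n / n else 0) := by
        split_ifs
        · exact div_nonneg (hr0 n) (Nat.cast_nonneg n)
        · exact le_rfl
      have hD : 0 ≤ 1 / (x - 1) * (if n ∈ s then 0 else g n) := by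
        refine mul_nonneg (by positivity) ?_
        split_ifs
        · exact le_rfl
        · exact hg0 n
      rcases Nat.eq_zero_or_pos n with h0 | hpos
      · subst h0
        have h00 : r 0 / ((0 : ℕ) : ℝ) ^ x = 0 := by
          have : r 0 = 0 := residueClass_apply_zero _
          rw [this, zero_div]
        rw [h00]
        exact add_nonneg (add_nonneg hA hB) hD
      have hn1 : (1 : ℝ) ≤ n := by exact_mod_cast hpos
      have hn0 : (0 : ℝ) < n := by linarith
      have hle : (n : ℝ) ≤ (n : ℝ) ^ x := by
        conv_lhs => rw [← Real.rpow_one (n : ℝ)]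
        exact Real.rpow_le_rpow_of_exponent_le hn1 hx.1.le
      have hle2 : r n / (n : ℝ) ^ x ≤ r n / n := div_le_div_of_nonneg_left (hr0 n) hn0 hle
      by_cases hp : n.Prime
      · by_cases hns : n ∈ s
        · simp only [hns, if_true] at hB hD ⊢
          linarith
        · simp only [hns, if_false] at hD ⊢
          -- main case
          by_cases hmod : n % 4 = 1
          · have hrn : r n = Real.log n := by
              have hz : ((n : ℕ) : ZMod 4) = 1 := by
                have : ((n % 4 : ℕ) : ZMod 4) = (n : ZMod 4) := ZMod.natCast_mod n 4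
                rw [← this, hmod]
                simp
              simp only [hr, residueClass]
              rw [Set.indicator_of_mem (by simpa using hz)]
              exact ArithmeticFunction.vonMangoldt_apply_prime hp
            have hlog : Real.log n ≤ (n : ℝ) ^ (x - 1) / (x - 1) := by
              rw [le_div_iff₀ hx1]
              have h1 := Real.log_le_sub_one_of_pos (Real.rpow_pos_of_pos hn0 (x - 1))
              rw [Real.log_rpow hn0] at h1
              linarith
            have hg1 : g n = 1 / n := by simp [hg, hp, hmod]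
            have h3 : r n / (n : ℝ) ^ x ≤ 1 / (x - 1) * g n := by
              rw [hg1, hrn]
              rw [div_le_iff₀ (Real.rpow_pos_of_pos hn0 x)]
              have h4 : (n : ℝ) ^ x = (n : ℝ) ^ (x - 1) * n := by
                conv_rhs => rw [← Real.rpow_add_one hn0.ne']
                congr 1; ring
              rw [h4]
              calc Real.log n ≤ (n : ℝ) ^ (x - 1) / (x - 1) := hlog
                _ = 1 / (x - 1) * (1 / n) * ((n : ℝ) ^ (x - 1) * n) := by
                  field_simp
            linarith
          · have hrn : r n = 0 := by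
              simp only [hr, residueClass]
              apply Set.indicator_of_notMem
              intro hz
              apply hmod
              have hz' : ((n : ℕ) : ZMod 4) = ((1 : ℕ) : ZMod 4) := by simpa using hz
              have := (ZMod.natCast_eq_natCast_iff' n 1 4).1 hz'
              simpa using this
            have h00 : r n / (n : ℝ) ^ x = 0 := by rw [hrn, zero_div]
            rw [h00]
            linarith
      · simp only [hp, if_false] at hA ⊢
        linarith
    have hsum1 : Summable fun n : ℕ => r n / (n : ℝ) ^ x :=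
      LSeries.summable_real_of_abscissaOfAbsConv_lt <|
        (abscissaOfAbsConv_residueClass_le_one (1 : ZMod 4)).trans_lt <| by exact_mod_cast hx.1
    have hsum2 := (hnp.add hsf).add (hgs.mul_left (1 / (x - 1)))
    calc ∑' n, r n / (n : ℝ) ^ x
        ≤ ∑' n : ℕ, ((if n.Prime then 0 else r n) / n +
        (if n ∈ s then r n / n else 0) + 1 / (x - 1) * (if n ∈ s then 0 else g n)) :=
          hsum1.tsum_le_tsum hpt hsum2
      _ = C1 + C2 + 1 / (x - 1) * ∑' n, (if n ∈ s then 0 else g n) := by
          rw [(hnp.add hsf).tsum_add (hgs.mul_left (1 / (x - 1))), hnp.tsum_add hsf,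
            tsum_mul_left]
      _ ≤ C1 + C2 + 1 / (x - 1) * (1 / 4) := by
          have : 0 ≤ 1 / (x - 1) := by positivity
          have := mul_le_mul_of_nonneg_left hs this
          linarith
  -- contradiction
  have hfin : ∀ x : ℝ, x ∈ Set.Ioc (1 : ℝ) 2 → 1 / 4 ≤ (C1 + C2 + C) * (x - 1) := by
    intro x hx
    have hx1 : 0 < x - 1 := by linarith [hx.1]
    have h1 := hC hx
    rw [htot] at h1
    have h2 := key x hx
    have h3 : 1 / 2 / (x - 1) - C ≤ C1 + C2 + 1 / (x - 1) * (1 / 4) := h1.trans h2
    have h4 : 1 / 2 / (x - 1) = 2 * (1 / 4 / (x - 1)) := by ring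
    have h5 : 1 / (x - 1) * (1 / 4) = 1 / 4 / (x - 1) := by ring
    rw [h4, h5] at h3
    have h6 : 1 / 4 / (x - 1) ≤ C1 + C2 + C := by linarith
    rwa [div_le_iff₀ hx1] at h6
  have hpos : 0 < C1 + C2 + C := by
    have := hfin 2 ⟨by norm_num, le_rfl⟩
    linarith
  have h8 : (0 : ℝ) < 1 / (8 * (C1 + C2 + C)) := by positivity
  have h9 := hfin (min 2 (1 + 1 / (8 * (C1 + C2 + C)))) ⟨by
    rw [lt_min_iff]; constructor
    · norm_num
    · linarith, min_le_left _ _⟩
  have h10 : min 2 (1 + 1 / (8 * (C1 + C2 + C))) - 1 ≤ 1 / (8 * (C1 + C2 + C)) := by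
    have := min_le_right 2 (1 + 1 / (8 * (C1 + C2 + C)))
    linarith
  have h11 := mul_le_mul_of_nonneg_left h10 hpos.le
  have h12 : (C1 + C2 + C) * (1 / (8 * (C1 + C2 + C))) = 1 / 8 := by
    field_simp
  rw [h12] at h11
  linarith

end Pool.Agent.Lib.MP_696bea_an
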