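import Mathlib

/-!
Strong sweeping out along slowly growing windows, for ergodic (not necessarily invertible)
maps of a probability space with measurable sets of arbitrarily small positive measure.
-/

set_option autoImplicit false

open MeasureTheory Filter Set

namespace Pool.Agent.Lib.MP_696bea_an

variable {X : Type*}

/-- Points whose first visit time to `C` is exactly `j`. -/
def hitLevel (T : X → X) (C : Set X) (j : ℕ) : Set X :=
  {x | T^[j] x ∈ C ∧ ∀ i < j, T^[i] x ∉ C}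

lemma hitLevel_shift {T : X → X} {C : Set X} {j k : ℕ} {x : X}
    (hx : x ∈ hitLevel T C j) (hk : k ≤ j) : T^[k] x ∈ hitLevel T C (j - k) := by
  refine ⟨?_, fun i hi => ?_⟩
  · rw [← Function.iterate_add_apply, Nat.sub_add_cancel hk]
    exact hx.1
  · rw [← Function.iterate_add_apply]
    exact hx.2 _ (by omega)

lemma hitLevel_unique {T : X → X} {C : Set X} {i j : ℕ} {x : X}
    (hi : x ∈ hitLevel T C i) (hj : x ∈ hitLevel T C j) : i = j := by
  rcases lt_trichotomy i j with h | h | h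
  · exact absurd hi.1 (hj.2 i h)
  · exact h
  · exact absurd hj.1 (hi.2 j h)

variable [MeasurableSpace X]

lemma measurableSet_hitLevel {T : X → X} (hT : Measurable T) {C : Set X}
    (hC : MeasurableSet C) (j : ℕ) : MeasurableSet (hitLevel T C j) := by
  have h1 : hitLevel T C j = (T^[j]) ⁻¹' C ∩ ⋂ i, ⋂ (_ : i < j), ((T^[i]) ⁻¹' C)ᶜ := by
    ext x
    simp [hitLevel]
  rw [h1]
  refine (hT.iterate j hC).inter ?_
  exact MeasurableSet.iInter fun i => MeasurableSet.iInter fun _ => (hT.iterate i hC).compl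

lemma ae_hit {μ : Measure X} [IsProbabilityMeasure μ] {T : X → X} (hT : Ergodic T μ)
    {C : Set X} (hC : MeasurableSet C) (hpos : μ C ≠ 0) :
    ∀ᵐ x ∂μ, ∃ j, x ∈ hitLevel T C j := by
  set U : Set X := ⋃ j, (T^[j]) ⁻¹' C with hU
  have hUm : MeasurableSet U := MeasurableSet.iUnion fun j => hT.measurable.iterate j hC
  have hsub : T ⁻¹' U ⊆ U := by
    intro x hx
    simp only [hU, mem_preimage, mem_iUnion] at hx ⊢
    obtain ⟨j, hj⟩ := hx
    exact ⟨j + 1, by rwa [Function.iterate_succ_apply]⟩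
  have h := hT.ae_empty_or_univ_of_preimage_ae_le hUm.nullMeasurableSet
    (Filter.Eventually.of_forall hsub)
  have hUC : C ⊆ U := fun x hx => mem_iUnion.2 ⟨0, hx⟩
  have hU1 : U =ᵐ[μ] Set.univ := by
    rcases h with h | h
    · exfalso
      have : μ U = 0 := by rw [measure_congr h]; simp
      exact hpos (measure_mono_null hUC this)
    · exact h
  have h2 : ∀ᵐ x ∂μ, x ∈ U := by
    filter_upwards [hU1] with x hx
    have : U x = Set.univ x := hx
    change U x
    rw [this]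
    trivial
  filter_upwards [h2] with x hx
  classical
  have hx' : ∃ j, T^[j] x ∈ C := by simpa [hU] using hx
  exact ⟨Nat.find hx', Nat.find_spec hx', fun i hi => Nat.find_min hx' hi⟩

/-- Tower lemma: a set `D` of measure at most `1/M` such that most points have a full run of
length `W` of their orbit inside `D`, starting in the time interval `[l, l + W * M]`. -/
lemma tower {μ : Measure X} [IsProbabilityMeasure μ] {T : X → X} (hT : Ergodic T μ)
    (hsmall : ∀ ε : ENNReal, 0 < ε → ∃ C, MeasurableSet C ∧ 0 < μ C ∧ μ C < ε)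
    (W M l : ℕ) (hW : 0 < W) (hM : 0 < M) (ε : ENNReal) (hε : 0 < ε) :
    ∃ D G : Set X, MeasurableSet D ∧ MeasurableSet G ∧ μ D ≤ (M : ENNReal)⁻¹ ∧ μ Gᶜ ≤ ε ∧
      ∀ x ∈ G, ∃ k₀, l ≤ k₀ ∧ k₀ ≤ l + W * M ∧
        ∀ k, k₀ ≤ k → k < k₀ + W → T^[k] x ∈ D := by
  classical
  set R : ℕ := W * M with hR
  have hRpos : 0 < R := Nat.mul_pos hW hM
  set Q : ℕ := l + 2 * R with hQ
  have hQpos : 0 < Q := by omega
  obtain ⟨C, hCm, hCpos, hCle⟩ := hsmall (ε / Q)
    (ENNReal.div_pos hε.ne' (ENNReal.natCast_ne_top Q))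
  -- the candidates for D
  let Dc : ℕ → Set X := fun i => ⋃ j, ⋃ (_ : (j % R) / W = i), hitLevel T C j
  have hDm : ∀ i, MeasurableSet (Dc i) := fun i =>
    MeasurableSet.iUnion fun j => MeasurableSet.iUnion fun _ =>
      measurableSet_hitLevel hT.measurable hCm j
  have hDdisj : Pairwise (Function.onFun Disjoint Dc) := by
    intro i i' hii
    rw [Function.onFun, Set.disjoint_left]
    intro x hx hx'
    simp only [Dc, mem_iUnion] at hx hx'
    obtain ⟨j, hj, hxj⟩ := hx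
    obtain ⟨j', hj', hxj'⟩ := hx'
    have := hitLevel_unique hxj hxj'
    subst this
    exact hii (hj.symm.trans hj')
  obtain ⟨i, hiM, hi⟩ : ∃ i < M, μ (Dc i) ≤ (M : ENNReal)⁻¹ := by
    by_contra hcon
    push Not at hcon
    have h1 : ∑ i ∈ Finset.range M, μ (Dc i) ≤ 1 := by
      rw [← measure_biUnion_finset (fun a _ b _ hab => hDdisj hab) (fun a _ => hDm a)]
      exact prob_le_one
    have h2 : ∑ i ∈ Finset.range M, (M : ENNReal)⁻¹ < ∑ i ∈ Finset.range M, μ (Dc i) := by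
      apply ENNReal.sum_lt_sum_of_nonempty
      · exact Finset.nonempty_range_iff.2 hM.ne'
      · intro a ha
        exact hcon a (Finset.mem_range.1 ha)
    have h3 : ∑ i ∈ Finset.range M, (M : ENNReal)⁻¹ = 1 := by
      rw [Finset.sum_const, Finset.card_range, nsmul_eq_mul]
      exact ENNReal.mul_inv_cancel (by exact_mod_cast hM.ne') (ENNReal.natCast_ne_top M)
    rw [h3] at h2
    exact absurd h1 (not_le.2 h2)
  let G : Set X := ⋃ j, ⋃ (_ : Q ≤ j), hitLevel T C j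
  have hGm : MeasurableSet G :=
    MeasurableSet.iUnion fun j => MeasurableSet.iUnion fun _ =>
      measurableSet_hitLevel hT.measurable hCm j
  refine ⟨Dc i, G, hDm i, hGm, hi, ?_, ?_⟩
  · -- measure of the complement of G
    have hae := ae_hit hT hCm hCpos.ne'
    have hsub : Gᶜ ⊆ (⋃ j ∈ Finset.range Q, (T^[j]) ⁻¹' C) ∪ {x | ¬ ∃ j, x ∈ hitLevel T C j} := by
      intro x hx
      by_cases h : ∃ j, x ∈ hitLevel T C j
      · left
        obtain ⟨j, hj⟩ := h
        have hjQ : j < Q := by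
          by_contra hcon
          push Not at hcon
          exact hx (mem_iUnion.2 ⟨j, mem_iUnion.2 ⟨hcon, hj⟩⟩)
        simp only [mem_iUnion]
        exact ⟨j, Finset.mem_range.2 hjQ, hj.1⟩
      · right; exact h
    calc μ Gᶜ ≤ μ ((⋃ j ∈ Finset.range Q, (T^[j]) ⁻¹' C) ∪ {x | ¬ ∃ j, x ∈ hitLevel T C j}) :=
          measure_mono hsub
      _ ≤ μ (⋃ j ∈ Finset.range Q, (T^[j]) ⁻¹' C) + μ {x | ¬ ∃ j, x ∈ hitLevel T C j} :=
          measure_union_le _ _
      _ = μ (⋃ j ∈ Finset.range Q, (T^[j]) ⁻¹' C) := by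
          have : μ {x | ¬ ∃ j, x ∈ hitLevel T C j} = 0 := hae
          rw [this, add_zero]
      _ ≤ ∑ j ∈ Finset.range Q, μ ((T^[j]) ⁻¹' C) := measure_biUnion_finset_le _ _
      _ = ∑ j ∈ Finset.range Q, μ C := by
          refine Finset.sum_congr rfl fun j _ => ?_
          exact (hT.toMeasurePreserving.iterate j).measure_preimage hCm.nullMeasurableSet
      _ = Q * μ C := by rw [Finset.sum_const, Finset.card_range, nsmul_eq_mul]
      _ ≤ Q * (ε / Q) := by gcongr
      _ = ε := ENNReal.mul_div_cancel (by exact_mod_cast hQpos.ne') (ENNReal.natCast_ne_top Q)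
  · intro x hx
    simp only [G, mem_iUnion] at hx
    obtain ⟨r, hrQ, hxr⟩ := hx
    -- residue wanted
    set b : ℕ := i * W + (W - 1) with hb
    have hbR : b < R := by
      have : (i + 1) * W ≤ M * W := Nat.mul_le_mul_right W hiM
      have h2 : (i + 1) * W = i * W + W := by ring
      have h3 : M * W = R := by rw [hR]; ring
      omega
    set a : ℕ := r - l with ha
    have hab : b ≤ a := by omega
    set t : ℕ := (a - b) % R with ht
    have htR : t < R := Nat.mod_lt _ hRpos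
    set q : ℕ := (a - b) / R with hq
    have hdecomp : R * q + t = a - b := Nat.div_add_mod (a - b) R
    refine ⟨l + t, by omega, by omega, ?_⟩
    intro k hk1 hk2
    have hkr : k ≤ r := by
      have hWR : W ≤ R := Nat.le_mul_of_pos_right W hM
      omega
    have hmem := hitLevel_shift hxr hkr
    refine mem_iUnion.2 ⟨r - k, mem_iUnion.2 ⟨?_, hmem⟩⟩
    -- compute
    obtain ⟨s, hs⟩ := Nat.exists_eq_add_of_le hk1
    have hsW : s < W := by omega
    have h1 : r - k = (i * W + (W - 1 - s)) + R * q := by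
      have : i * W + (W - 1) = b := rfl
      omega
    have h2 : i * W + (W - 1 - s) < R := by omega
    rw [h1, Nat.add_mul_mod_self_left, Nat.mod_eq_of_lt h2]
    rw [add_comm, Nat.add_mul_div_right _ _ hW, Nat.div_eq_of_lt (by omega), zero_add]

/-- Window version of the tower lemma. -/
lemma window {μ : Measure X} [IsProbabilityMeasure μ] {T : X → X} (hT : Ergodic T μ)
    (hsmall : ∀ ε : ENNReal, 0 < ε → ∃ C, MeasurableSet C ∧ 0 < μ C ∧ μ C < ε)
    (f : ℕ → ℕ) (hf : ∀ ε : ℝ, 0 < ε → ∀ᶠ L : ℕ in atTop, (f L : ℝ) ≤ ε * L)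
    (l H₀ : ℕ) (η ε : ENNReal) (hη : 0 < η) (hε : 0 < ε) :
    ∃ (D G : Set X) (H : ℕ), MeasurableSet D ∧ MeasurableSet G ∧ μ D ≤ η ∧ μ Gᶜ ≤ ε ∧ H₀ ≤ H ∧
      ∀ x ∈ G, ∃ L, l ≤ L ∧ L + f L ≤ H ∧ ∀ k, L - f L ≤ k → k ≤ L + f L → T^[k] x ∈ D := by
  obtain ⟨M, hM⟩ := ENNReal.exists_inv_nat_lt hη.ne'
  have hMpos : 0 < M := by
    rcases Nat.eq_zero_or_pos M with h | h
    · subst h
      simp at hM
    · exact h
  have hMr : (0 : ℝ) < (M : ℝ) + 1 := by positivity
  obtain ⟨L₀, hL₀⟩ := eventually_atTop.1 (hf (1 / (4 * ((M : ℝ) + 1))) (by positivity))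
  set F : ℕ := (Finset.range (L₀ + 1)).sup f with hF
  set W : ℕ := 2 * F + l + 2 with hW
  have hWpos : 0 < W := by omega
  have hkey : ∀ L, L ≤ l + W * (M + 1) → 2 * f L + 1 ≤ W := by
    intro L hL
    rcases le_or_gt L L₀ with h | h
    · have : f L ≤ F := Finset.le_sup (f := f) (Finset.mem_range.2 (by omega))
      omega
    · have h1 := hL₀ L h.le
      have h2 : (L : ℝ) ≤ l + W * (M + 1) := by exact_mod_cast hL
      have h3 : (f L : ℝ) ≤ 1 / (4 * ((M : ℝ) + 1)) * (l + W * (M + 1)) :=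
        h1.trans (mul_le_mul_of_nonneg_left h2 (by positivity))
      have h4 : 1 / (4 * ((M : ℝ) + 1)) * (l + W * (M + 1)) ≤ l / 4 + W / 4 := by
        rw [div_mul_eq_mul_div, div_le_iff₀ (by positivity)]
        have hl0 : (0 : ℝ) ≤ l := Nat.cast_nonneg l
        have hM0 : (0 : ℝ) ≤ M := Nat.cast_nonneg M
        nlinarith [mul_nonneg hl0 hM0]
      have h5 : (l : ℝ) + 2 ≤ W := by
        have : l + 2 ≤ W := by omega
        exact_mod_cast this
      have h6 : 2 * (f L : ℝ) + 1 ≤ W := by linarith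
      exact_mod_cast h6
  obtain ⟨D, G, hDm, hGm, hD, hG, hrun⟩ := tower hT hsmall W M l hWpos hMpos ε hε
  refine ⟨D, G, H₀ + l + W * M + W, hDm, hGm, hD.trans hM.le, hG, by omega, ?_⟩
  intro x hx
  obtain ⟨k₀, h1, h2, h3⟩ := hrun x hx
  have h2' : k₀ ≤ l + W * M := h2
  have hWM : W * (M + 1) = W * M + W := by ring
  set L : ℕ := k₀ + (W - 1) / 2 with hL
  have hLle : L ≤ l + W * (M + 1) := by omega
  have hfL := hkey L hLle
  refine ⟨L, by omega, by omega, ?_⟩
  intro k hk1 hk2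
  exact h3 k (by omega) (by omega)

/-- Strong sweeping out: there is a measurable set `A` such that almost every orbit spends
infinitely many of the windows `[L - f L, L + f L]` entirely inside `A`, and infinitely many
entirely outside `A`. -/
theorem sweep {μ : Measure X} [IsProbabilityMeasure μ] {T : X → X} (hT : Ergodic T μ)
    (hsmall : ∀ ε : ENNReal, 0 < ε → ∃ C, MeasurableSet C ∧ 0 < μ C ∧ μ C < ε)
    (f : ℕ → ℕ) (hf : ∀ ε : ℝ, 0 < ε → ∀ᶠ L : ℕ in atTop, (f L : ℝ) ≤ ε * L) :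
    ∃ A : Set X, MeasurableSet A ∧ ∀ᵐ x ∂μ,
      (∀ L₀ : ℕ, ∃ L ≥ L₀, ∀ k, L - f L ≤ k → k ≤ L + f L → T^[k] x ∈ A) ∧
      (∀ L₀ : ℕ, ∃ L ≥ L₀, ∀ k, L - f L ≤ k → k ≤ L + f L → T^[k] x ∉ A) := by
  classical
  have hw : ∀ (j H₀ : ℕ), ∃ (D G : Set X) (H : ℕ), MeasurableSet D ∧ MeasurableSet G ∧
      μ D ≤ (2⁻¹ : ENNReal) ^ j / ((H₀ : ENNReal) + 1) ∧ μ Gᶜ ≤ (2⁻¹ : ENNReal) ^ j ∧ H₀ ≤ H ∧
      ∀ x ∈ G, ∃ L, j ≤ L ∧ L + f L ≤ H ∧
        ∀ k, L - f L ≤ k → k ≤ L + f L → T^[k] x ∈ D := by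
    intro j H₀
    have h2 : (0 : ENNReal) < (2⁻¹ : ENNReal) ^ j :=
      ENNReal.pow_pos (ENNReal.inv_pos.2 (by simp)) j
    exact window hT hsmall f hf j H₀ _ _
      (ENNReal.div_pos h2.ne' (by
        exact_mod_cast ENNReal.natCast_ne_top (H₀ + 1))) h2
  choose D' G' H' hDm' hGm' hD' hG' hH' hwin' using hw
  obtain ⟨h, hsucc⟩ : ∃ h : ℕ → ℕ, ∀ j, h (j + 1) = H' j (h j) :=
    ⟨fun j => Nat.rec (motive := fun _ => ℕ) 0 (fun j hj => H' j hj) j, fun j => rfl⟩
  have hmono : Monotone h := monotone_nat_of_le_succ fun j => by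
    rw [hsucc]; exact hH' j (h j)
  let D : ℕ → Set X := fun j => D' j (h j)
  let G : ℕ → Set X := fun j => G' j (h j)
  have hDm : ∀ j, MeasurableSet (D j) := fun j => hDm' j (h j)
  have hD : ∀ j, μ (D j) ≤ (2⁻¹ : ENNReal) ^ j / ((h j : ENNReal) + 1) := fun j => hD' j (h j)
  have hG : ∀ j, μ (G j)ᶜ ≤ (2⁻¹ : ENNReal) ^ j := fun j => hG' j (h j)
  have hwin : ∀ j, ∀ x ∈ G j, ∃ L, j ≤ L ∧ L + f L ≤ h (j + 1) ∧
      ∀ k, L - f L ≤ k → k ≤ L + f L → T^[k] x ∈ D j := fun j => by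
    rw [hsucc]; exact hwin' j (h j)
  -- bad sets
  let B : ℕ → Set X := fun j =>
    (G j)ᶜ ∪ ⋃ k ∈ Finset.range (h (j + 1) + 1), ⋃ i, (T^[k]) ⁻¹' (D (i + (j + 1)))
  have hBle : ∀ j, μ (B j) ≤ 2 * (2⁻¹ : ENNReal) ^ j := by
    intro j
    have h0 : ((h (j + 1) : ENNReal) + 1) ≠ 0 := by simp
    have h0' : ((h (j + 1) : ENNReal) + 1) ≠ ⊤ := by
      exact_mod_cast ENNReal.natCast_ne_top (h (j + 1) + 1)
    have h1 : ∀ k, μ (⋃ i, (T^[k]) ⁻¹' (D (i + (j + 1)))) ≤
        (2⁻¹ : ENNReal) ^ j / ((h (j + 1) : ENNReal) + 1) := by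
      intro k
      calc μ (⋃ i, (T^[k]) ⁻¹' (D (i + (j + 1))))
          ≤ ∑' i, μ ((T^[k]) ⁻¹' (D (i + (j + 1)))) := measure_iUnion_le _
        _ = ∑' i, μ (D (i + (j + 1))) := by
            refine tsum_congr fun i => ?_
            exact (hT.toMeasurePreserving.iterate k).measure_preimage
              (hDm _).nullMeasurableSet
        _ ≤ ∑' i, (2⁻¹ : ENNReal) ^ (i + (j + 1)) / ((h (j + 1) : ENNReal) + 1) := by
            refine ENNReal.tsum_le_tsum fun i => (hD _).trans ?_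
            have : (h (j + 1) : ENNReal) ≤ h (i + (j + 1)) := by
              exact_mod_cast hmono (by omega)
            gcongr
        _ = (∑' i, (2⁻¹ : ENNReal) ^ (i + (j + 1))) / ((h (j + 1) : ENNReal) + 1) := by
            simp_rw [div_eq_mul_inv]
            rw [ENNReal.tsum_mul_right]
        _ = (2⁻¹ : ENNReal) ^ j / ((h (j + 1) : ENNReal) + 1) := by
            congr 1
            simp_rw [pow_add]
            rw [ENNReal.tsum_mul_right, ENNReal.tsum_geometric, ENNReal.one_sub_inv_two, inv_inv,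
              pow_one, mul_comm ((2⁻¹ : ENNReal) ^ j), ← mul_assoc,
              ENNReal.mul_inv_cancel (by simp) (by simp), one_mul]
    calc μ (B j) ≤ μ (G j)ᶜ +
          μ (⋃ k ∈ Finset.range (h (j + 1) + 1), ⋃ i, (T^[k]) ⁻¹' (D (i + (j + 1)))) :=
          measure_union_le _ _
      _ ≤ (2⁻¹ : ENNReal) ^ j +
          ∑ k ∈ Finset.range (h (j + 1) + 1), μ (⋃ i, (T^[k]) ⁻¹' (D (i + (j + 1)))) :=
          add_le_add (hG j) (measure_biUnion_finset_le _ _)
      _ ≤ (2⁻¹ : ENNReal) ^ j +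
          ∑ k ∈ Finset.range (h (j + 1) + 1),
            (2⁻¹ : ENNReal) ^ j / ((h (j + 1) : ENNReal) + 1) := by
          gcongr with k _
          exact h1 k
      _ = (2⁻¹ : ENNReal) ^ j + (2⁻¹ : ENNReal) ^ j := by
          rw [Finset.sum_const, Finset.card_range, nsmul_eq_mul]
          push_cast
          rw [ENNReal.mul_div_cancel h0 h0']
      _ = 2 * (2⁻¹ : ENNReal) ^ j := by ring
  have hBsum : ∑' j, μ (B j) ≠ ⊤ := by
    refine ne_top_of_le_ne_top ?_ (ENNReal.tsum_le_tsum hBle)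
    rw [ENNReal.tsum_mul_left, ENNReal.tsum_geometric, ENNReal.one_sub_inv_two, inv_inv]
    exact ENNReal.mul_ne_top (by simp) (by simp)
  have hae := ae_eventually_notMem hBsum
  let A : Set X := ⋃ j, ⋃ (_ : Even j), (D j \ ⋃ i, D (i + (j + 1)))
  have hAm : MeasurableSet A := MeasurableSet.iUnion fun j => MeasurableSet.iUnion fun _ =>
    (hDm j).diff (MeasurableSet.iUnion fun i => hDm _)
  refine ⟨A, hAm, ?_⟩
  filter_upwards [hae] with x hx
  obtain ⟨j₀, hj₀⟩ := eventually_atTop.1 hx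
  -- main consequence for good j
  have hmain : ∀ j ≥ j₀, ∃ L ≥ j, ∀ k, L - f L ≤ k → k ≤ L + f L →
      T^[k] x ∈ D j ∧ ∀ i > j, T^[k] x ∉ D i := by
    intro j hj
    have hxB := hj₀ j hj
    have hxG : x ∈ G j := by
      by_contra hcon
      exact hxB (Or.inl hcon)
    obtain ⟨L, hLj, hLH, hLw⟩ := hwin j x hxG
    refine ⟨L, hLj, fun k hk1 hk2 => ⟨hLw k hk1 hk2, fun i hi hmem => ?_⟩⟩
    apply hxB
    right
    simp only [mem_iUnion]
    refine ⟨k, Finset.mem_range.2 (by omega), i - (j + 1), ?_⟩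
    have : i - (j + 1) + (j + 1) = i := by omega
    rw [mem_preimage, this]
    exact hmem
  constructor
  · intro L₀
    obtain ⟨L, hL, hw⟩ := hmain (2 * (j₀ + L₀)) (by omega)
    refine ⟨L, by omega, fun k hk1 hk2 => ?_⟩
    obtain ⟨h1, h2⟩ := hw k hk1 hk2
    refine mem_iUnion.2 ⟨2 * (j₀ + L₀), mem_iUnion.2 ⟨even_two_mul _, h1, ?_⟩⟩
    intro hcon
    obtain ⟨i, hi⟩ := mem_iUnion.1 hcon
    exact h2 _ (by omega) hi
  · intro L₀
    obtain ⟨L, hL, hw⟩ := hmain (2 * (j₀ + L₀) + 1) (by omega)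
    refine ⟨L, by omega, fun k hk1 hk2 hA => ?_⟩
    obtain ⟨h1, h2⟩ := hw k hk1 hk2
    obtain ⟨j', hj'⟩ := mem_iUnion.1 hA
    obtain ⟨hev, hmem, hnot⟩ := mem_iUnion.1 hj'
    rcases lt_trichotomy j' (2 * (j₀ + L₀) + 1) with hlt | heq | hgt
    · apply hnot
      refine mem_iUnion.2 ⟨2 * (j₀ + L₀) + 1 - (j' + 1), ?_⟩
      have : 2 * (j₀ + L₀) + 1 - (j' + 1) + (j' + 1) = 2 * (j₀ + L₀) + 1 := by omega
      rw [this]
      exact h1
    · rw [heq] at hev
      exact (Nat.not_even_bit1 _) hev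
    · exact h2 j' hgt hmem

end Pool.Agent.Lib.MP_696bea_an
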