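import Mathlib
import Pool.Agent.Lib.MP_696bea_an.Sweep
import Pool.Agent.Lib.MP_696bea_an.Diverge
import Pool.Agent.Lib.MP_696bea_an.Conc

/-!
Assembly: small sets of positive measure, choice of the scales, and the two one sided bounds.
-/

set_option autoImplicit false

open MeasureTheory Filter Set Topology

namespace Pool.Agent.Lib.MP_696bea_an

open ArithmeticFunction

/-! ### Small sets of positive measure -/

lemma small_of_standard {X : Type*} [MeasurableSpace X] (μ : Measure X) [IsProbabilityMeasure μ]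
    (hX : StandardBorelSpace X) (hna : ∀ x, μ {x} = 0) :
    ∀ ε : ENNReal, 0 < ε → ∃ C, MeasurableSet C ∧ 0 < μ C ∧ μ C < ε := by
  intro ε hε
  let _ := upgradeStandardBorel X
  let _ := TopologicalSpace.upgradeIsCompletelyMetrizable X
  obtain ⟨x, -, hx⟩ := exists_mem_forall_mem_nhdsWithin_pos_measure (μ := μ) (s := Set.univ)
    (by simp)
  have h0 : μ {x} < ε := by rw [hna x]; exact hε
  obtain ⟨U, hxU, hUo, hU⟩ := Set.exists_isOpen_lt_of_lt {x} ε h0
  refine ⟨U, hUo.measurableSet, ?_, hU⟩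
  apply hx
  rw [nhdsWithin_univ]
  exact hUo.mem_nhds (hxU rfl)

lemma small_of_countablySeparated {X : Type*} [MeasurableSpace X] (μ : Measure X)
    [IsProbabilityMeasure μ] (hX : MeasurableSpace.CountablySeparated X) (hna : ∀ x, μ {x} = 0) :
    ∀ ε : ENNReal, 0 < ε → ∃ C, MeasurableSet C ∧ 0 < μ C ∧ μ C < ε := by
  obtain ⟨f, hf, hinj⟩ :=
    MeasurableSpace.measurable_injection_nat_bool_of_countablySeparated X
  have hprob : IsProbabilityMeasure (μ.map f) := Measure.isProbabilityMeasure_map hf.aemeasurable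
  have hnull : ∀ y, (μ.map f) {y} = 0 := by
    intro y
    rw [Measure.map_apply hf (measurableSet_singleton y)]
    by_cases h : ∃ x, f x = y
    · obtain ⟨x, rfl⟩ := h
      have : f ⁻¹' {f x} = {x} := by
        ext z
        simp only [Set.mem_preimage, Set.mem_singleton_iff]
        exact ⟨fun h => hinj h, fun h => by rw [h]⟩
      rw [this]
      exact hna x
    · have : f ⁻¹' {y} = ∅ := by
        ext z
        simp only [Set.mem_preimage, Set.mem_singleton_iff, Set.mem_empty_iff_false, iff_false]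
        exact fun hz => h ⟨z, hz⟩
      rw [this, measure_empty]
  intro ε hε
  obtain ⟨C, hC, h1, h2⟩ := small_of_standard (μ.map f) inferInstance hnull ε hε
  rw [Measure.map_apply hf hC] at h1 h2
  exact ⟨f ⁻¹' C, hf hC, h1, h2⟩

lemma small_of_nonatomic {X : Type*} [MeasurableSpace X] (μ : Measure X) [IsProbabilityMeasure μ]
    (h : ∀ s, MeasurableSet s → μ s ≠ 0 → ∃ t ⊆ s, MeasurableSet t ∧ μ t ≠ 0 ∧ μ (s \ t) ≠ 0) :
    ∀ ε : ENNReal, 0 < ε → ∃ C, MeasurableSet C ∧ 0 < μ C ∧ μ C < ε := by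
  have key : ∀ n : ℕ, ∃ C, MeasurableSet C ∧ μ C ≠ 0 ∧ μ C ≤ (2⁻¹ : ENNReal) ^ n := by
    intro n
    induction n with
    | zero => exact ⟨Set.univ, MeasurableSet.univ, by simp, by simp⟩
    | succ n ih =>
      obtain ⟨s, hs, hs0, hsn⟩ := ih
      obtain ⟨t, hts, ht, ht0, htc0⟩ := h s hs hs0
      have hadd : μ t + μ (s \ t) = μ s := by
        have h1 := measure_inter_add_sdiff (μ := μ) s ht
        rwa [Set.inter_eq_self_of_subset_right hts] at h1
      have hhalf : ∀ a b : ENNReal, a + b = μ s → a ≤ b → a ≤ (2⁻¹ : ENNReal) ^ (n + 1) := by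
        intro a b hab hle
        have h1 : 2 * a ≤ μ s := by
          rw [two_mul, ← hab]
          exact add_le_add le_rfl hle
        have h2 : a ≤ 2⁻¹ * μ s := by
          rw [mul_comm, ← div_eq_mul_inv, ENNReal.le_div_iff_mul_le (by simp) (by simp), mul_comm]
          exact h1
        refine h2.trans ?_
        rw [pow_succ, mul_comm]
        exact mul_le_mul' hsn le_rfl
      rcases le_total (μ t) (μ (s \ t)) with hle | hle
      · exact ⟨t, ht, ht0, hhalf _ _ hadd hle⟩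
      · exact ⟨s \ t, hs.diff ht, htc0, hhalf _ _ (by rw [add_comm]; exact hadd) hle⟩
  intro ε hε
  obtain ⟨n, hn⟩ := ENNReal.exists_inv_two_pow_lt hε.ne'
  obtain ⟨C, h1, h2, h3⟩ := key n
  exact ⟨C, h1, pos_iff_ne_zero.2 h2, h3.trans_lt hn⟩

/-! ### The scales -/

lemma ctr_tendsto : Tendsto ctr atTop atTop := by
  have hmono : Monotone ctr := by
    intro a b hab
    refine Finset.sum_le_sum_of_subset_of_nonneg ?_ fun p hp _ => dens_nonneg (mem_S.1 hp).1.1
    intro p hp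
    obtain ⟨⟨h1, h2⟩, h3⟩ := mem_S.1 hp
    exact mem_S.2 ⟨⟨h1, h2.trans hab⟩, h3⟩
  have hns := not_summable_primes_one_mod_four
  have h1 : Tendsto (fun n : ℕ => ∑ i ∈ Finset.range n,
      (if i.Prime ∧ i % 4 = 1 then (1 : ℝ) / i else 0)) atTop atTop := by
    rw [← not_summable_iff_tendsto_nat_atTop_of_nonneg]
    · exact hns
    · intro n; split_ifs <;> positivity
  refine tendsto_atTop_mono (fun n => ?_) h1
  rw [← Finset.sum_filter]
  have hsub : (Finset.range n).filter (fun i => i.Prime ∧ i % 4 = 1) ⊆ S n := by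
    intro p hp
    simp only [Finset.mem_filter, Finset.mem_range] at hp
    exact mem_S.2 ⟨⟨hp.2.1.one_lt.le, hp.1.le⟩, hp.2⟩
  refine le_trans (Finset.sum_le_sum fun p hp => ?_)
    (Finset.sum_le_sum_of_subset_of_nonneg hsub fun p hp _ => dens_nonneg (mem_S.1 hp).1.1)
  exact dens_ge (mem_S.1 (hsub hp)).1.1

lemma ctr_succ_le (y : ℕ) : ctr (y + 1) ≤ ctr y + 1 := by
  classical
  have hsub : S (y + 1) ⊆ insert (y + 1) (S y) := by
    intro p hp
    obtain ⟨⟨h1, h2⟩, h3⟩ := mem_S.1 hp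
    rw [Finset.mem_insert]
    rcases Nat.lt_or_ge p (y + 1) with h | h
    · right; exact mem_S.2 ⟨⟨h1, by omega⟩, h3⟩
    · left; omega
  have hnot : (y + 1) ∉ S y := by
    intro h
    have := (mem_S.1 h).1.2
    omega
  calc ctr (y + 1) ≤ ∑ p ∈ insert (y + 1) (S y), dens p := by
        refine Finset.sum_le_sum_of_subset_of_nonneg hsub fun p hp _ => ?_
        rcases Finset.mem_insert.1 hp with h | h
        · subst h; exact dens_nonneg (by omega)
        · exact dens_nonneg (mem_S.1 h).1.1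
    _ = dens (y + 1) + ctr y := by rw [Finset.sum_insert hnot, ctr]
    _ ≤ ctr y + 1 := by
        have := dens_le_one (p := y + 1) (by omega)
        linarith

/-- For every `L` there is a scale `y >= L` with `L <= ctr y <= L + 1`. -/
lemma exists_scale (L : ℕ) : ∃ y : ℕ, L ≤ y ∧ (L : ℝ) ≤ ctr y ∧ ctr y ≤ L + 1 := by
  classical
  have hex : ∃ y : ℕ, (L : ℝ) ≤ ctr y := (tendsto_atTop.1 ctr_tendsto (L : ℝ)).exists
  refine ⟨Nat.find hex, ?_, Nat.find_spec hex, ?_⟩
  · have h1 := Nat.find_spec hex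
    have h2 := ctr_le (Nat.find hex)
    have h3 : (L : ℝ) ≤ (Nat.find hex : ℕ) := h1.trans h2
    exact_mod_cast h3
  · rcases Nat.eq_zero_or_pos (Nat.find hex) with h | h
    · rw [h]
      have : ctr 0 ≤ ((0 : ℕ) : ℝ) := ctr_le 0
      have h2 : (0 : ℝ) ≤ L := Nat.cast_nonneg L
      push_cast at this
      linarith
    · obtain ⟨m, hm⟩ : ∃ m, Nat.find hex = m + 1 := ⟨Nat.find hex - 1, by omega⟩
      have h1 : ¬ (L : ℝ) ≤ ctr m := Nat.find_min hex (by omega)
      have h2 := ctr_succ_le m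
      rw [hm]
      push Not at h1
      linarith

/-- half width of the windows. -/
noncomputable def wid (L : ℕ) : ℕ := ⌊2 * (L : ℝ) ^ (3 / 4 : ℝ) + 1⌋₊

lemma wid_small : ∀ ε : ℝ, 0 < ε → ∀ᶠ L : ℕ in atTop, (wid L : ℝ) ≤ ε * L := by
  intro ε hε
  have h1 : Tendsto (fun L : ℕ => (L : ℝ) ^ (-(1 / 4 : ℝ))) atTop (𝓝 0) :=
    (tendsto_rpow_neg_atTop (by norm_num)).comp tendsto_natCast_atTop_atTop
  have h2 := (tendsto_order.1 h1).2 (ε / 3) (by positivity)
  filter_upwards [h2, eventually_ge_atTop 1] with L hL hL1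
  have hL1' : (1 : ℝ) ≤ L := by exact_mod_cast hL1
  have hL0 : (0 : ℝ) < L := by linarith
  have h3 : (L : ℝ) ^ (3 / 4 : ℝ) = L * (L : ℝ) ^ (-(1 / 4 : ℝ)) := by
    have : (3 / 4 : ℝ) = 1 + -(1 / 4) := by norm_num
    rw [this, Real.rpow_add hL0, Real.rpow_one]
  have h4 : (1 : ℝ) ≤ (L : ℝ) ^ (3 / 4 : ℝ) := Real.one_le_rpow hL1' (by norm_num)
  have h5 : (wid L : ℝ) ≤ 2 * (L : ℝ) ^ (3 / 4 : ℝ) + 1 := Nat.floor_le (by positivity)
  have h6 : (L : ℝ) ^ (3 / 4 : ℝ) ≤ L * (ε / 3) := by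
    rw [h3]; exact mul_le_mul_of_nonneg_left hL.le hL0.le
  linarith

/-- Main counting statement at the chosen scale. -/
lemma scale_count (L y : ℕ) (hL : 1 ≤ L) (hLy : L ≤ y) (h1 : (L : ℝ) ≤ ctr y)
    (h2 : ctr y ≤ L + 1) :
    (((box (y ^ 4)).filter (fun z => ¬ (L - wid L ≤ cardFactors (ssq z) ∧
      cardFactors (ssq z) ≤ L + wid L))).card : ℝ) ≤
      (((y ^ 4 : ℕ) : ℝ)) ^ 2 * (131 * (L : ℝ) ^ (-(1 / 2 : ℝ))) := by
  classical
  have hL1' : (1 : ℝ) ≤ L := by exact_mod_cast hL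
  have hL0 : (0 : ℝ) < L := by linarith
  set t : ℝ := (L : ℝ) ^ (3 / 4 : ℝ) with ht
  have ht0 : 0 < t := Real.rpow_pos_of_pos hL0 _
  have hconc := concentration y (by omega) t ht0
  have hsub : (box (y ^ 4)).filter (fun z => ¬ (L - wid L ≤ cardFactors (ssq z) ∧
      cardFactors (ssq z) ≤ L + wid L)) ⊆
      (box (y ^ 4)).filter (fun z => 2 * t < |(cardFactors (ssq z) : ℝ) - ctr y|) := by
    intro z hz
    obtain ⟨hzb, hzn⟩ := Finset.mem_filter.1 hz
    refine Finset.mem_filter.2 ⟨hzb, ?_⟩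
    by_contra hcon
    rw [not_lt] at hcon
    apply hzn
    have h3 := abs_le.1 hcon
    have h4 : 2 * t + 1 < wid L + 1 := Nat.lt_floor_add_one _
    set k := cardFactors (ssq z) with hk
    constructor
    · have h5 : (L : ℝ) < k + wid L + 1 := by linarith
      have h6 : L < k + wid L + 1 := by exact_mod_cast h5
      omega
    · have h5 : (k : ℝ) < L + wid L + 1 := by linarith
      have h6 : k < L + wid L + 1 := by exact_mod_cast h5
      omega
  have h3 : (((box (y ^ 4)).filter (fun z => ¬ (L - wid L ≤ cardFactors (ssq z) ∧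
      cardFactors (ssq z) ≤ L + wid L))).card : ℝ) ≤
      (((box (y ^ 4)).filter (fun z => 2 * t < |(cardFactors (ssq z) : ℝ) - ctr y|)).card : ℝ) := by
    exact_mod_cast Finset.card_le_card hsub
  refine h3.trans (hconc.trans ?_)
  push_cast
  refine mul_le_mul_of_nonneg_left ?_ (by positivity)
  have h4 : t ^ 2 = L * (L : ℝ) ^ (1 / 2 : ℝ) := by
    rw [ht, ← Real.rpow_natCast, ← Real.rpow_mul hL0.le]
    nth_rewrite 2 [← Real.rpow_one (L : ℝ)]
    rw [← Real.rpow_add hL0]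
    norm_num
  have h5 : (L : ℝ) ^ (-(1 / 2 : ℝ)) = 1 / (L : ℝ) ^ (1 / 2 : ℝ) := by
    rw [Real.rpow_neg hL0.le]
    exact (one_div _).symm
  have hs0 : 0 < (L : ℝ) ^ (1 / 2 : ℝ) := Real.rpow_pos_of_pos hL0 _
  have h6 : (ctr y + 20) / t ^ 2 ≤ 22 * (1 / (L : ℝ) ^ (1 / 2 : ℝ)) := by
    rw [h4]
    calc (ctr y + 20) / (L * (L : ℝ) ^ (1 / 2 : ℝ)) ≤ (22 * L) / (L * (L : ℝ) ^ (1 / 2 : ℝ)) := by
          gcongr; linarith
      _ = 22 * (1 / (L : ℝ) ^ (1 / 2 : ℝ)) := by field_simp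
  have h7 : (L : ℝ) ^ (1 / 2 : ℝ) ≤ t :=
    Real.rpow_le_rpow_of_exponent_le hL1' (by norm_num)
  have h8 : 109 / t ≤ 109 * (1 / (L : ℝ) ^ (1 / 2 : ℝ)) := by
    rw [mul_one_div]
    exact div_le_div_of_nonneg_left (by norm_num) hs0 h7
  rw [h5]
  linarith

/-! ### From windows to averages -/

/-- The average of `1_A (T^{Omega(m^2+n^2)} x)` over the box. -/
noncomputable def avg {X : Type*} (T : X → X) (A : Set X) (x : X) (N : ℕ) : ℝ :=
  (∑ m ∈ Finset.Icc 1 N, ∑ n ∈ Finset.Icc 1 N,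
    A.indicator (fun _ => (1 : ℝ)) (T^[cardFactors (m ^ 2 + n ^ 2)] x)) / (N : ℝ) ^ 2

lemma avg_eq {X : Type*} (T : X → X) (A : Set X) (x : X) (N : ℕ) :
    avg T A x N = (∑ z ∈ box N, A.indicator (fun _ => (1 : ℝ)) (T^[cardFactors (ssq z)] x)) /
      (N : ℝ) ^ 2 := by
  rw [avg, box, Finset.sum_product]
  rfl

lemma indicator_mem_Icc {X : Type*} (A : Set X) (x : X) :
    0 ≤ A.indicator (fun _ => (1 : ℝ)) x ∧ A.indicator (fun _ => (1 : ℝ)) x ≤ 1 := by
  by_cases h : x ∈ A <;> simp [h]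

lemma card_box (N : ℕ) : ((box N).card : ℝ) = (N : ℝ) ^ 2 := by
  rw [box, Finset.card_product]; simp; ring

lemma avg_nonneg {X : Type*} (T : X → X) (A : Set X) (x : X) (N : ℕ) : 0 ≤ avg T A x N := by
  rw [avg_eq]
  exact div_nonneg (Finset.sum_nonneg fun z _ => (indicator_mem_Icc A _).1) (by positivity)

lemma avg_le_one {X : Type*} (T : X → X) (A : Set X) (x : X) (N : ℕ) : avg T A x N ≤ 1 := by
  rw [avg_eq]
  rcases Nat.eq_zero_or_pos N with h | h
  · subst h; simp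
  · have hN : (0 : ℝ) < (N : ℝ) ^ 2 := by positivity
    rw [div_le_one hN, ← card_box]
    calc ∑ z ∈ box N, A.indicator (fun _ => (1 : ℝ)) (T^[cardFactors (ssq z)] x)
        ≤ ∑ z ∈ box N, (1 : ℝ) := Finset.sum_le_sum fun z _ => (indicator_mem_Icc A _).2
      _ = ((box N).card : ℝ) := by simp

/-- If the whole window is in `A`, the average at the scale is close to one. -/
lemma avg_ge {X : Type*} (T : X → X) (A : Set X) (x : X) (L y : ℕ) (hL : 1 ≤ L) (hLy : L ≤ y)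
    (h1 : (L : ℝ) ≤ ctr y) (h2 : ctr y ≤ L + 1)
    (hw : ∀ k, L - wid L ≤ k → k ≤ L + wid L → T^[k] x ∈ A) :
    1 - 131 * (L : ℝ) ^ (-(1 / 2 : ℝ)) ≤ avg T A x (y ^ 4) := by
  classical
  have hcount := scale_count L y hL hLy h1 h2
  have hN : (0 : ℝ) < (((y ^ 4 : ℕ) : ℝ)) ^ 2 := by
    have : 0 < y := by omega
    positivity
  rw [avg_eq, le_div_iff₀ hN]
  have h3 : ∑ z ∈ box (y ^ 4), (if ¬ (L - wid L ≤ cardFactors (ssq z) ∧
      cardFactors (ssq z) ≤ L + wid L) then (0 : ℝ) else 1) ≤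
      ∑ z ∈ box (y ^ 4), A.indicator (fun _ => (1 : ℝ)) (T^[cardFactors (ssq z)] x) := by
    refine Finset.sum_le_sum fun z _ => ?_
    by_cases h : L - wid L ≤ cardFactors (ssq z) ∧ cardFactors (ssq z) ≤ L + wid L
    · rw [if_neg (not_not.2 h), Set.indicator_of_mem (hw _ h.1 h.2)]
    · rw [if_pos h]
      exact (indicator_mem_Icc A _).1
  have h4 : ∑ z ∈ box (y ^ 4), (if ¬ (L - wid L ≤ cardFactors (ssq z) ∧
      cardFactors (ssq z) ≤ L + wid L) then (0 : ℝ) else 1) =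
      ((box (y ^ 4)).card : ℝ) - (((box (y ^ 4)).filter (fun z => ¬ (L - wid L ≤
        cardFactors (ssq z) ∧ cardFactors (ssq z) ≤ L + wid L))).card : ℝ) := by
    rw [Finset.card_filter, Finset.card_eq_sum_ones]
    push_cast
    rw [← Finset.sum_sub_distrib]
    refine Finset.sum_congr rfl fun z _ => ?_
    split_ifs <;> simp
  rw [h4, card_box] at h3
  linarith

/-- If the whole window is outside `A`, the average at the scale is close to zero. -/
lemma avg_le {X : Type*} (T : X → X) (A : Set X) (x : X) (L y : ℕ) (hL : 1 ≤ L) (hLy : L ≤ y)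
    (h1 : (L : ℝ) ≤ ctr y) (h2 : ctr y ≤ L + 1)
    (hw : ∀ k, L - wid L ≤ k → k ≤ L + wid L → T^[k] x ∉ A) :
    avg T A x (y ^ 4) ≤ 131 * (L : ℝ) ^ (-(1 / 2 : ℝ)) := by
  classical
  have hcount := scale_count L y hL hLy h1 h2
  have hN : (0 : ℝ) < (((y ^ 4 : ℕ) : ℝ)) ^ 2 := by
    have : 0 < y := by omega
    positivity
  rw [avg_eq, div_le_iff₀ hN]
  have h3 : ∑ z ∈ box (y ^ 4), A.indicator (fun _ => (1 : ℝ)) (T^[cardFactors (ssq z)] x) ≤
      ∑ z ∈ box (y ^ 4), (if ¬ (L - wid L ≤ cardFactors (ssq z) ∧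
      cardFactors (ssq z) ≤ L + wid L) then (1 : ℝ) else 0) := by
    refine Finset.sum_le_sum fun z _ => ?_
    by_cases h : L - wid L ≤ cardFactors (ssq z) ∧ cardFactors (ssq z) ≤ L + wid L
    · rw [if_neg (not_not.2 h), Set.indicator_of_notMem (hw _ h.1 h.2)]
    · rw [if_pos h]
      exact (indicator_mem_Icc A _).2
  have h4 : ∑ z ∈ box (y ^ 4), (if ¬ (L - wid L ≤ cardFactors (ssq z) ∧
      cardFactors (ssq z) ≤ L + wid L) then (1 : ℝ) else 0) =
      (((box (y ^ 4)).filter (fun z => ¬ (L - wid L ≤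
        cardFactors (ssq z) ∧ cardFactors (ssq z) ≤ L + wid L))).card : ℝ) := by
    rw [Finset.card_filter]
    push_cast
    rfl
  rw [h4] at h3
  linarith

lemma err_tendsto : Tendsto (fun L : ℕ => 131 * (L : ℝ) ^ (-(1 / 2 : ℝ))) atTop (𝓝 0) := by
  have h1 : Tendsto (fun L : ℕ => (L : ℝ) ^ (-(1 / 2 : ℝ))) atTop (𝓝 0) :=
    (tendsto_rpow_neg_atTop (by norm_num)).comp tendsto_natCast_atTop_atTop
  simpa using h1.const_mul 131

lemma limsup_eq_one {X : Type*} (T : X → X) (A : Set X) (x : X)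
    (hw : ∀ L₀ : ℕ, ∃ L ≥ L₀, ∀ k, L - wid L ≤ k → k ≤ L + wid L → T^[k] x ∈ A) :
    limsup (fun N : ℕ => avg T A x N) atTop = 1 := by
  have hbdd : IsBoundedUnder (· ≤ ·) atTop (fun N : ℕ => avg T A x N) :=
    isBoundedUnder_of ⟨1, fun N => avg_le_one T A x N⟩
  have hcob : IsCoboundedUnder (· ≤ ·) atTop (fun N : ℕ => avg T A x N) :=
    (isBoundedUnder_of ⟨0, fun N => avg_nonneg T A x N⟩ :
      IsBoundedUnder (· ≥ ·) atTop (fun N : ℕ => avg T A x N)).isCoboundedUnder_le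
  apply le_antisymm
  · exact limsup_le_of_le hcob (Eventually.of_forall fun N => avg_le_one T A x N)
  · refine le_of_forall_sub_le fun ε hε => ?_
    refine le_limsup_of_frequently_le ?_ hbdd
    rw [frequently_atTop]
    intro N₀
    obtain ⟨L₁, hL₁⟩ := eventually_atTop.1 ((tendsto_order.1 err_tendsto).2 ε hε)
    obtain ⟨L, hL, hwL⟩ := hw (max (max L₁ 1) N₀)
    have hLL₁ : L₁ ≤ L := (le_max_left _ _).trans ((le_max_left _ _).trans hL)
    have hL1 : 1 ≤ L := (le_max_right _ _).trans ((le_max_left _ _).trans hL)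
    have hLN : N₀ ≤ L := (le_max_right _ _).trans hL
    obtain ⟨y, hy, hy1, hy2⟩ := exists_scale L
    refine ⟨y ^ 4, ?_, ?_⟩
    · calc N₀ ≤ y := hLN.trans hy
        _ ≤ y ^ 4 := Nat.le_self_pow (by norm_num) y
    · have h1 := avg_ge T A x L y hL1 hy hy1 hy2 hwL
      have h2 := hL₁ L hLL₁
      linarith

lemma liminf_eq_zero {X : Type*} (T : X → X) (A : Set X) (x : X)
    (hw : ∀ L₀ : ℕ, ∃ L ≥ L₀, ∀ k, L - wid L ≤ k → k ≤ L + wid L → T^[k] x ∉ A) :
    liminf (fun N : ℕ => avg T A x N) atTop = 0 := by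
  have hbdd : IsBoundedUnder (· ≥ ·) atTop (fun N : ℕ => avg T A x N) :=
    isBoundedUnder_of ⟨0, fun N => avg_nonneg T A x N⟩
  have hcob : IsCoboundedUnder (· ≥ ·) atTop (fun N : ℕ => avg T A x N) :=
    (isBoundedUnder_of ⟨1, fun N => avg_le_one T A x N⟩ :
      IsBoundedUnder (· ≤ ·) atTop (fun N : ℕ => avg T A x N)).isCoboundedUnder_ge
  apply le_antisymm
  · refine le_of_forall_pos_le_add fun ε hε => ?_
    rw [zero_add]
    refine liminf_le_of_frequently_le ?_ hbdd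
    rw [frequently_atTop]
    intro N₀
    obtain ⟨L₁, hL₁⟩ := eventually_atTop.1 ((tendsto_order.1 err_tendsto).2 ε hε)
    obtain ⟨L, hL, hwL⟩ := hw (max (max L₁ 1) N₀)
    have hLL₁ : L₁ ≤ L := (le_max_left _ _).trans ((le_max_left _ _).trans hL)
    have hL1 : 1 ≤ L := (le_max_right _ _).trans ((le_max_left _ _).trans hL)
    have hLN : N₀ ≤ L := (le_max_right _ _).trans hL
    obtain ⟨y, hy, hy1, hy2⟩ := exists_scale L
    refine ⟨y ^ 4, ?_, ?_⟩
    · calc N₀ ≤ y := hLN.trans hy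
        _ ≤ y ^ 4 := Nat.le_self_pow (by norm_num) y
    · have h1 := avg_le T A x L y hL1 hy hy1 hy2 hwL
      have h2 := hL₁ L hLL₁
      linarith
  · exact le_liminf_of_le hcob (Eventually.of_forall fun N => avg_nonneg T A x N)

end Pool.Agent.Lib.MP_696bea_an
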